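import Pool.Agent.Helper93.UX.Defs
import Pool.Agent.Helper56.UG.Cv
import Pool.Agent.Helper24.UG.Win

/-!
# NR: from the measure to the ordinates

If the `η s`-neighbourhoods of all elements of `Γ` lie in a set `E` of measure `δ T`, then the number of the zeros with ordinate
in `Γ` is at most `C/η √δ T log T`: the cells of length `η s` which meet `Γ` lie in `E`; Cauchy; the second moment of the window
counts.
-/

set_option autoImplicit false
open MeasureTheory Set Filter Topology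
open Pool.Agent.Helper93.UG (zc IsOrd sp)
open Pool.Agent.Helper56.UG (zc_mono zc_union zc_eq fin_of)

namespace Pool.Agent.Helper93.NR

lemma zc_union_le {I J : Set ℝ} {a b : ℝ} (hI : I ⊆ Icc a b) (hJ : J ⊆ Icc a b) : zc (I ∪ J) ≤ zc I + zc J := by
  have h1 : I ∪ J = I ∪ (J \ I) := by simp
  rw [h1, zc_union hI (sdiff_subset.trans hJ) disjoint_sdiff_right]
  exact Nat.add_le_add_left (zc_mono sdiff_subset hJ) _

lemma zc_emp : zc ∅ = 0 := by
  unfold zc
  simp

lemma zc_biUnion_le (I : ℕ → Set ℝ) {a b : ℝ} (hI : ∀ k, I k ⊆ Icc a b) (S : Finset ℕ) :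
    zc (⋃ k ∈ S, I k) ≤ ∑ k ∈ S, zc (I k) := by
  classical
  induction S using Finset.induction_on with
  | empty => simp [zc_emp]
  | insert k S hk ih =>
    rw [Finset.set_biUnion_insert, Finset.sum_insert hk]
    refine (zc_union_le (hI k) (iUnion₂_subset fun j _ => hI j)).trans ?_
    exact Nat.add_le_add_left ih _

/-- the cells -/
def cell (T d : ℝ) (k : ℕ) : Set ℝ := Ico (T + k * d) (T + (k + 1) * d)

lemma cell_disj {T d : ℝ} (hd : 0 < d) : Pairwise (Function.onFun Disjoint (cell T d)) := by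
  intro i j hij
  rw [Function.onFun, Set.disjoint_left]
  rintro x ⟨h1, h2⟩ ⟨h3, h4⟩
  rcases lt_or_gt_of_ne hij with h | h
  · have h5 : (i:ℝ) + 1 ≤ j := by exact_mod_cast h
    have h6 := mul_le_mul_of_nonneg_right h5 hd.le
    linarith
  · have h5 : (j:ℝ) + 1 ≤ i := by exact_mod_cast h
    have h6 := mul_le_mul_of_nonneg_right h5 hd.le
    linarith

lemma cell_meas (T d : ℝ) (k : ℕ) : MeasurableSet (cell T d k) := measurableSet_Ico

lemma cell_vol (T d : ℝ) (k : ℕ) : volume (cell T d k) = ENNReal.ofReal d := by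
  unfold cell
  rw [Real.volume_Ico]
  congr 1
  ring

/-- P: from the measure to the ordinates -/
theorem transfer_of (h1 : Pool.Agent.Helper93.UX.TX1) : ∃ C T₀ : ℝ, 1 ≤ C ∧ ∀ T η δ : ℝ, T₀ ≤ T → 0 < η → η ≤ 1 → 0 < δ →
    δ ≤ 1 → ∀ Γ E : Set ℝ, Γ ⊆ Icc T (2 * T) →
    (∀ γ ∈ Γ, ∀ t, |t - γ| < η * sp T → t ∈ E) → E ⊆ Icc (T / 2) (3 * T) → volume E ≤ ENNReal.ofReal (δ * T) →
    (zc Γ : ℝ) ≤ C / η * √δ * (T * Real.log T) := by
  classical
  obtain ⟨C₁, d₁, T₁, hC₁, hd₁, H⟩ := h1 1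
  obtain ⟨C₂, hC₂⟩ : ∃ C₂, C₂ = 2 * (C₁ * Real.log (2 + 2)) + 20 := ⟨_, rfl⟩
  have hl4 : 0 < Real.log (2 + 2) := Real.log_pos (by norm_num)
  have hC₂0 : 0 < C₂ := by rw [hC₂]; positivity
  have hll : Tendsto (fun T : ℝ => Real.log T / Real.log (Real.log T)) atTop atTop := by
    have e1 : Tendsto (fun x : ℝ => x / Real.log x) atTop atTop := by
      have e2 : Tendsto (fun x : ℝ => Real.log x / x) atTop (𝓝[>] 0) := by
        rw [tendsto_nhdsWithin_iff]
        refine ⟨Real.isLittleO_log_id_atTop.tendsto_div_nhds_zero, ?_⟩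
        filter_upwards [eventually_gt_atTop (1:ℝ)] with x hx
        exact div_pos (Real.log_pos hx) (by linarith)
      have e3 := e2.inv_tendsto_nhdsGT_zero
      refine e3.congr fun x => ?_
      simp [inv_div]
    exact e1.comp Real.tendsto_log_atTop
  obtain ⟨T₂, hT₂⟩ := eventually_atTop.mp (((Real.tendsto_log_atTop.eventually_ge_atTop (20:ℝ)).and
    ((hll.eventually_ge_atTop (2 / d₁)).and (eventually_ge_atTop (20:ℝ)))))
  refine ⟨√C₂ + 1, max T₁ T₂, by linarith [Real.sqrt_nonneg C₂], ?_⟩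
  intro T η δ hT hη hη1 hδ hδ1 Γ E hΓ hΓE hE hvol
  have hT1 : T₁ ≤ T := (le_max_left _ _).trans hT
  obtain ⟨hL, hdL, hT20⟩ := hT₂ T ((le_max_right _ _).trans hT)
  have hT0 : 0 < T := by linarith
  have hL0 : 0 < Real.log T := by linarith
  have hpi := Real.pi_pos
  have hpi4 := Real.pi_lt_four
  have hs : 0 < sp T := by unfold sp; positivity
  have hs1 : sp T ≤ 1 := by
    unfold sp
    rw [div_le_one hL0]
    linarith
  obtain ⟨d, hd⟩ : ∃ d, d = η * sp T := ⟨_, rfl⟩
  have hd0 : 0 < d := by rw [hd]; positivity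
  have hds : d ≤ sp T := by
    rw [hd]
    nlinarith
  rw [← hd] at hΓE
  -- the moment
  have h2d : (2:ℝ) ≤ d₁ * (Real.log T / Real.log (Real.log T)) := by
    rw [div_le_iff₀ hd₁] at hdL
    linarith
  obtain ⟨H1, H2⟩ := H T hT1 2 (by norm_num) h2d
  simp only [mul_one, pow_one] at H1 H2
  obtain ⟨N, hN⟩ : ∃ N : ℝ → ℝ, N = fun u => (zc (Ico u (u + 2 * sp T)) : ℝ) := ⟨_, rfl⟩
  have hNm : Measurable N := by
    have := Pool.Agent.Helper24.UG.zc_meas (sp T)
    have h5 := this.comp (measurable_id.add_const (sp T))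
    rw [hN]
    convert h5 using 2 with u
    simp only [Function.comp_apply, id_eq]
    congr 3 <;> ring
  have hNint : IntegrableOn (fun u => N u ^ 2) (Icc (T / 2) (3 * T)) := by
    have h5 : IntegrableOn (fun u => 2 * |(zc (Ico u (u + 2 * sp T)) : ℝ) - 2| ^ 2 + 8) (Icc (T / 2) (3 * T)) :=
      (H1.const_mul 2).add (by simp)
    refine Integrable.mono' h5 (hNm.pow_const 2).aestronglyMeasurable (Eventually.of_forall fun u => ?_)
    rw [Real.norm_of_nonneg (sq_nonneg _), sq_abs, hN]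
    simp only
    nlinarith [sq_nonneg ((zc (Ico u (u + 2 * sp T)) : ℝ) - 4)]
  have hNI : ∫ u in Icc (T / 2) (3 * T), N u ^ 2 ≤ C₂ * T := by
    have h5 : ∫ u in Icc (T / 2) (3 * T), N u ^ 2 ≤
        ∫ u in Icc (T / 2) (3 * T), (2 * |(zc (Ico u (u + 2 * sp T)) : ℝ) - 2| ^ 2 + 8) := by
      refine integral_mono hNint ((H1.const_mul 2).add (by simp)) fun u => ?_
      simp only
      rw [sq_abs, hN]
      nlinarith [sq_nonneg ((zc (Ico u (u + 2 * sp T)) : ℝ) - 4)]
    have h6 : ∫ u in Icc (T / 2) (3 * T), (2 * |(zc (Ico u (u + 2 * sp T)) : ℝ) - 2| ^ 2 + 8) =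
        2 * (∫ u in Icc (T / 2) (3 * T), |(zc (Ico u (u + 2 * sp T)) : ℝ) - 2| ^ 2) + 8 * (3 * T - T / 2) := by
      rw [integral_add (H1.const_mul 2) (by simp), integral_const_mul, setIntegral_const, smul_eq_mul, Real.volume_real_Icc_of_le (by linarith)]
      ring
    rw [h6] at h5
    rw [hC₂]
    nlinarith
  -- the cells
  obtain ⟨K, hK⟩ : ∃ K : ℕ, K = ⌊T / d⌋₊ + 1 := ⟨_, rfl⟩
  obtain ⟨S, hS⟩ : ∃ S : Finset ℕ, S = (Finset.range K).filter fun k => ∃ γ ∈ Γ, γ ∈ cell T d k := ⟨_, rfl⟩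
  have hKd : (K:ℝ) * d ≤ T + d := by
    have h5 : (⌊T / d⌋₊ : ℝ) ≤ T / d := Nat.floor_le (by positivity)
    have h6 : (⌊T / d⌋₊ : ℝ) * d ≤ T := by rwa [le_div_iff₀ hd0] at h5
    rw [hK]
    push_cast
    linarith
  have hcellI : ∀ k ∈ Finset.range K, cell T d k ⊆ Icc T (2 * T + 1) := by
    intro k hk x hx
    have h5 : (k:ℝ) + 1 ≤ K := by exact_mod_cast Finset.mem_range.mp hk
    have h6 := mul_le_mul_of_nonneg_right h5 hd0.le
    have h7 : (0:ℝ) ≤ k * d := by positivity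
    exact ⟨by linarith [hx.1], by linarith [hx.2]⟩
  have hcover : Γ ⊆ ⋃ k ∈ S, (cell T d k ∩ Icc T (2 * T + 1)) := by
    intro γ hγ
    obtain ⟨g1, g2⟩ := hΓ hγ
    have h5 : 0 ≤ (γ - T) / d := div_nonneg (by linarith) hd0.le
    have h6 := Nat.floor_le h5
    have h7 := Nat.lt_floor_add_one ((γ - T) / d)
    rw [le_div_iff₀ hd0] at h6
    rw [div_lt_iff₀ hd0] at h7
    have h8 : γ ∈ cell T d ⌊(γ - T) / d⌋₊ := ⟨by linarith, by linarith⟩
    refine mem_iUnion₂.mpr ⟨⌊(γ - T) / d⌋₊, ?_, h8, g1, by linarith⟩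
    rw [hS, Finset.mem_filter, Finset.mem_range, hK]
    refine ⟨Nat.lt_succ_of_le (Nat.floor_le_floor ?_), γ, hγ, h8⟩
    exact div_le_div_of_nonneg_right (by linarith) hd0.le
  have hzc : (zc Γ : ℝ) ≤ ∑ k ∈ S, (zc (cell T d k) : ℝ) := by
    have h5 : zc Γ ≤ ∑ k ∈ S, zc (cell T d k ∩ Icc T (2 * T + 1)) := by
      refine (zc_mono hcover (a := T) (b := 2 * T + 1) (iUnion₂_subset fun k _ => inter_subset_right)).trans ?_
      exact zc_biUnion_le _ (fun k => inter_subset_right) S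
    have h6 : ∑ k ∈ S, zc (cell T d k ∩ Icc T (2 * T + 1)) ≤ ∑ k ∈ S, zc (cell T d k) :=
      Finset.sum_le_sum fun k _ => zc_mono inter_subset_left Ico_subset_Icc_self
    exact_mod_cast h5.trans h6
  -- their number
  have hcard : (S.card : ℝ) * d ≤ δ * T := by
    have h5 : ∑ k ∈ S, volume (cell T d k) ≤ volume E := by
      rw [← measure_biUnion_finset (fun i _ j _ hij => cell_disj hd0 hij) (fun k _ => cell_meas _ _ k)]
      refine measure_mono (iUnion₂_subset fun k hk => ?_)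
      rw [hS, Finset.mem_filter] at hk
      obtain ⟨-, γ, hγ, g1, g2⟩ := hk
      intro t ht
      refine hΓE γ hγ t ?_
      obtain ⟨t1, t2⟩ := ht
      rw [abs_lt]
      constructor <;> linarith
    simp_rw [cell_vol T d] at h5
    rw [Finset.sum_const, nsmul_eq_mul] at h5
    have h6 := h5.trans hvol
    rw [← ENNReal.ofReal_natCast, ← ENNReal.ofReal_mul (Nat.cast_nonneg _)] at h6
    exact (ENNReal.ofReal_le_ofReal_iff (by positivity)).mp h6
  -- the second moment
  have hmom : (∑ k ∈ S, (zc (cell T d k) : ℝ) ^ 2) * d ≤ C₂ * T := by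
    have h5 : ∀ k ∈ S, (zc (cell T d k) : ℝ) ^ 2 * d ≤ ∫ u in cell (T - sp T) d k, N u ^ 2 := by
      intro k hk
      have hk' : k ∈ Finset.range K := by
        rw [hS, Finset.mem_filter] at hk
        exact hk.1
      have h6 : cell (T - sp T) d k ⊆ Icc (T / 2) (3 * T) := by
        intro x hx
        have h7 : (k:ℝ) + 1 ≤ K := by exact_mod_cast Finset.mem_range.mp hk'
        have h8 := mul_le_mul_of_nonneg_right h7 hd0.le
        have h9 : (0:ℝ) ≤ k * d := by positivity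
        obtain ⟨x1, x2⟩ := hx
        exact ⟨by linarith, by linarith⟩
      have h7 : ∫ u in cell (T - sp T) d k, (zc (cell T d k) : ℝ) ^ 2 = (zc (cell T d k) : ℝ) ^ 2 * d := by
        rw [setIntegral_const, smul_eq_mul]
        have : volume.real (cell (T - sp T) d k) = d := by
          rw [measureReal_def, cell_vol _ d, ENNReal.toReal_ofReal hd0.le]
        rw [this]
        ring
      rw [← h7]
      refine setIntegral_mono_on (by
        rw [integrableOn_const_iff]
        right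
        rw [cell_vol _ d]
        exact ENNReal.ofReal_lt_top) (hNint.mono_set h6) (cell_meas _ _ k) fun u hu => ?_
      apply pow_le_pow_left₀ (Nat.cast_nonneg _)
      rw [hN]
      simp only [Nat.cast_le]
      obtain ⟨u1, u2⟩ := hu
      refine zc_mono (fun y hy => ?_) Ico_subset_Icc_self
      obtain ⟨y1, y2⟩ := hy
      exact ⟨by linarith, by linarith⟩
    rw [Finset.sum_mul]
    refine (Finset.sum_le_sum h5).trans ?_
    have hsub : ⋃ k ∈ S, cell (T - sp T) d k ⊆ Icc (T / 2) (3 * T) := by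
      refine iUnion₂_subset fun k hk => ?_
      have hk' : k ∈ Finset.range K := by
        rw [hS, Finset.mem_filter] at hk
        exact hk.1
      intro x hx
      have h7 : (k:ℝ) + 1 ≤ K := by exact_mod_cast Finset.mem_range.mp hk'
      have h8 := mul_le_mul_of_nonneg_right h7 hd0.le
      have h9 : (0:ℝ) ≤ k * d := by positivity
      obtain ⟨x1, x2⟩ := hx
      exact ⟨by linarith, by linarith⟩
    rw [← integral_biUnion_finset S (fun k _ => cell_meas _ _ k) (fun i _ j _ hij => cell_disj hd0 hij)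
      (fun k hk => hNint.mono_set ((subset_iUnion₂ (s := fun k (_ : k ∈ S) => cell (T - sp T) d k) k hk).trans hsub))]
    refine (setIntegral_mono_set hNint (Eventually.of_forall fun u => sq_nonneg _) hsub.eventuallyLE).trans hNI
  -- Cauchy
  have hcs : (∑ k ∈ S, (zc (cell T d k) : ℝ)) ^ 2 ≤ S.card * ∑ k ∈ S, (zc (cell T d k) : ℝ) ^ 2 := sq_sum_le_card_mul_sum_sq
  have hsq : (∑ k ∈ S, (zc (cell T d k) : ℝ)) ^ 2 ≤ (√C₂ * √δ * (T / d)) ^ 2 := by
    have h5 : (√C₂ * √δ * (T / d)) ^ 2 = C₂ * δ * (T / d) ^ 2 := by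
      rw [mul_pow, mul_pow, Real.sq_sqrt hC₂0.le, Real.sq_sqrt hδ.le]
    rw [h5]
    refine hcs.trans ?_
    have h6 : ((S.card : ℝ) * d) * ((∑ k ∈ S, (zc (cell T d k) : ℝ) ^ 2) * d) ≤ (δ * T) * (C₂ * T) :=
      mul_le_mul hcard hmom (by positivity) (by positivity)
    have h7 : C₂ * δ * (T / d) ^ 2 = (δ * T) * (C₂ * T) / d ^ 2 := by
      field_simp
    rw [h7, le_div_iff₀ (by positivity)]
    linarith
  have h5 : (∑ k ∈ S, (zc (cell T d k) : ℝ)) ≤ √C₂ * √δ * (T / d) :=
    (pow_le_pow_iff_left₀ (by positivity) (by positivity) two_ne_zero).mp hsq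
  refine hzc.trans (h5.trans ?_)
  have h6 : T / d = T * Real.log T / (2 * Real.pi * η) := by
    rw [hd]
    unfold sp
    field_simp
  rw [h6]
  have h7 : √C₂ * √δ * (T * Real.log T / (2 * Real.pi * η)) = √C₂ / η * √δ * (T * Real.log T) / (2 * Real.pi) := by
    field_simp
  rw [h7]
  have h8 : √C₂ / η * √δ * (T * Real.log T) ≤ (√C₂ + 1) / η * √δ * (T * Real.log T) := by
    have h9 : √C₂ / η ≤ (√C₂ + 1) / η := div_le_div_of_nonneg_right (by linarith) hη.le
    exact mul_le_mul_of_nonneg_right (mul_le_mul_of_nonneg_right h9 (Real.sqrt_nonneg _)) (by positivity)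
  refine le_trans (div_le_self (by positivity) ?_) h8
  have := Real.pi_gt_three
  linarith

end Pool.Agent.Helper93.NR
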