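import Pool.Agent.Helper93.NR.Ker
import Pool.Agent.Helper93.NR.Transfer
import Pool.Agent.Helper49.SO.Base

/-!
# NR: one scale, pointwise; sums over the zeros; the trivial bound
-/

set_option autoImplicit false
open MeasureTheory Set Filter Topology
open Pool.Agent.Helper57.Zeta Pool.Agent.Helper57.LH Pool.Agent.Helper57.ED
open Pool.Agent.Helper54.LG (qk qk_cont qk_zero_nonneg qk_neg_right)
open Pool.Agent.Helper93.UG (zc sp)
open Pool.Agent.Helper56.UG (zc_mono zc_union zc_eq fin_of)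
open Pool.Agent.Helper24.UG (zc_fin)

namespace Pool.Agent.Helper93.NR

/-- number of the zeros at distance at most `k` mean spacings -/
noncomputable def Nk (T : ℝ) (k : ℕ) (t : ℝ) : ℝ := (zc (Icc (t - k * sp T) (t + k * sp T)) : ℝ)

/-- its deviation -/
noncomputable def Dk (T : ℝ) (k : ℕ) (t : ℝ) : ℝ := |Nk T k t - 2 * k|

open Classical in
/-- the smooth count of one scale, cut at `L` mean spacings -/
noncomputable def TM (T L M t : ℝ) : ℝ :=
  ∑' ρ : ZS, mx ρ * (if |(ρ : ℂ).im - t| ≤ L * sp T then KK M (((ρ : ℂ).im - t) / sp T) else 0)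

lemma Dk_nonneg (T : ℝ) (k : ℕ) (t : ℝ) : 0 ≤ Dk T k t := abs_nonneg _

lemma mem_win {T t γ y : ℝ} (hs : 0 < sp T) : γ ∈ Icc (t - y * sp T) (t + y * sp T) ↔ |(γ - t) / sp T| ≤ y := by
  rw [abs_div, abs_of_pos hs, div_le_iff₀ hs, abs_le, Set.mem_Icc]
  constructor
  · rintro ⟨h1, h2⟩
    constructor <;> linarith
  · rintro ⟨h1, h2⟩
    constructor <;> linarith

open Classical in
lemma cnt_le {T t : ℝ} (hs : 0 < sp T) (F : Finset ZS) (k : ℕ) :
    ∑ ρ ∈ F, mx ρ * (if |((ρ : ℂ).im - t) / sp T| ≤ k then 1 else 0) ≤ Nk T k t := by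
  obtain ⟨H, hH, h1⟩ := zc_fin (I := Icc (t - k * sp T) (t + k * sp T)) subset_rfl
  unfold Nk
  rw [h1]
  simp_rw [mul_ite, mul_one, mul_zero]
  rw [← Finset.sum_filter]
  refine Finset.sum_le_sum_of_subset_of_nonneg (fun ρ hρ => ?_) fun ρ _ _ => mx_nonneg _
  rw [hH, mem_win hs]
  exact (Finset.mem_filter.1 hρ).2

open Classical in
lemma le_cnt {T t : ℝ} (hs : 0 < sp T) (F : Finset ZS) (k : ℕ) (hF : ∀ ρ : ZS, |((ρ : ℂ).im - t) / sp T| ≤ k → ρ ∈ F) :
    Nk T k t ≤ ∑ ρ ∈ F, mx ρ * (if |((ρ : ℂ).im - t) / sp T| ≤ k then 1 else 0) := by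
  obtain ⟨H, hH, h1⟩ := zc_fin (I := Icc (t - k * sp T) (t + k * sp T)) subset_rfl
  unfold Nk
  rw [h1]
  simp_rw [mul_ite, mul_one, mul_zero]
  rw [← Finset.sum_filter]
  refine Finset.sum_le_sum_of_subset_of_nonneg (fun ρ hρ => ?_) fun ρ _ _ => mx_nonneg _
  rw [hH, mem_win hs] at hρ
  exact Finset.mem_filter.2 ⟨hF ρ hρ, hρ⟩

open Classical in
lemma tm_fin {T L t : ℝ} (hs : 0 < sp T) : ∃ F : Finset ZS, (∀ ρ : ZS, ρ ∈ F ↔ |((ρ : ℂ).im - t) / sp T| ≤ L) ∧
    ∀ f : ZS → ℝ, ∑' ρ : ZS, mx ρ * (if |(ρ : ℂ).im - t| ≤ L * sp T then f ρ else 0) = ∑ ρ ∈ F, mx ρ * f ρ := by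
  obtain ⟨F, hF, -⟩ := zc_fin (I := Icc (t - L * sp T) (t + L * sp T)) subset_rfl
  have hF' : ∀ ρ : ZS, ρ ∈ F ↔ |((ρ : ℂ).im - t) / sp T| ≤ L := fun ρ => by rw [hF, mem_win hs]
  refine ⟨F, hF', fun f => ?_⟩
  have e : ∀ ρ : ZS, |(ρ : ℂ).im - t| ≤ L * sp T ↔ ρ ∈ F := by
    intro ρ
    rw [hF', abs_div, abs_of_pos hs, div_le_iff₀ hs]
  rw [tsum_eq_sum (s := F)]
  · refine Finset.sum_congr rfl fun ρ hρ => ?_
    rw [if_pos ((e ρ).2 hρ)]
  · intro ρ hρ
    rw [if_neg (fun h => hρ ((e ρ).1 h)), mul_zero]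

lemma sum_a {M : ℝ} (m : ℕ) : ∑ k ∈ Finset.range m, (KK M k - KK M (k + 1)) = KK M 0 - KK M m := by
  induction m with
  | zero => simp
  | succ m ih =>
    rw [Finset.sum_range_succ, ih]
    push_cast
    ring

lemma a_nonneg {M : ℝ} (hM : 0 < M) (k : ℕ) : 0 ≤ KK M k - KK M (k + 1) := by
  have := KK_anti hM (show (0:ℝ) ≤ k by positivity) (show (0:ℝ) ≤ (k:ℝ) + 1 by positivity) (by linarith)
  linarith

/-- one scale, pointwise -/
lemma point {T L M t : ℝ} (hs : 0 < sp T) (hL : 1 ≤ L) (hM : 1 ≤ M) (hML : M ^ 3 ≤ L) :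
    |TM T L M t - M| ≤ (∑ k ∈ Finset.range ⌈L⌉₊, (KK M k - KK M (k + 1)) * Dk T (k + 1) t) +
      (∑ k ∈ Finset.range ⌊L⌋₊, (KK M k - KK M (k + 1)) * Dk T k t) +
      KK M ⌈L⌉₊ * Dk T ⌈L⌉₊ t + KK M ⌊L⌋₊ * Dk T ⌊L⌋₊ t + 6 := by
  classical
  have hM0 : 0 < M := by linarith
  obtain ⟨F, hF, hTM⟩ := tm_fin (T := T) (L := L) (t := t) hs
  have hTM' : TM T L M t = ∑ ρ ∈ F, mx ρ * KK M (((ρ : ℂ).im - t) / sp T) := by
    unfold TM
    rw [← hTM]
  have hm1 : L ≤ (⌈L⌉₊ : ℝ) := Nat.le_ceil L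
  have hm2 : (⌊L⌋₊ : ℝ) ≤ L := Nat.floor_le (by linarith)
  have hf1 : 1 ≤ ⌊L⌋₊ := Nat.le_floor (by exact_mod_cast hL)
  have hc1 : 0 < ⌈L⌉₊ := Nat.ceil_pos.2 (by linarith)
  have hhalf : L / 2 ≤ (⌊L⌋₊ : ℝ) := by
    have h1 : L < (⌊L⌋₊ : ℝ) + 1 := Nat.lt_floor_add_one L
    have h2 : (1:ℝ) ≤ (⌊L⌋₊ : ℝ) := by exact_mod_cast hf1
    linarith
  set m := ⌈L⌉₊ with hm
  set n := ⌊L⌋₊ with hn
  -- upper bound
  have hU : TM T L M t ≤ (∑ k ∈ Finset.range m, (KK M k - KK M (k + 1)) * Nk T (k + 1) t) + KK M m * Nk T m t := by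
    rw [hTM']
    have h1 : ∀ ρ ∈ F, mx ρ * KK M (((ρ : ℂ).im - t) / sp T) ≤
        (∑ k ∈ Finset.range m, (KK M k - KK M (k + 1)) * (mx ρ * (if |((ρ : ℂ).im - t) / sp T| ≤ ((k + 1 : ℕ) : ℝ) then 1 else 0))) +
          KK M m * (mx ρ * (if |((ρ : ℂ).im - t) / sp T| ≤ (m : ℝ) then 1 else 0)) := by
      intro ρ hρ
      have h2 := (hF ρ).1 hρ
      have h3 := step_upper (KK_anti hM0) (abs_nonneg (((ρ : ℂ).im - t) / sp T)) m (h2.trans hm1)
      rw [KK_abs] at h3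
      have h4 := mul_le_mul_of_nonneg_left h3 (mx_nonneg ρ)
      rw [if_pos (h2.trans hm1)]
      refine h4.trans (le_of_eq ?_)
      rw [mul_add, Finset.mul_sum]
      congr 1
      · refine Finset.sum_congr rfl fun k _ => ?_
        push_cast
        ring
      · ring
    refine (Finset.sum_le_sum h1).trans ?_
    rw [Finset.sum_add_distrib, Finset.sum_comm, ← Finset.mul_sum]
    simp_rw [← Finset.mul_sum]
    refine add_le_add (Finset.sum_le_sum fun k _ => mul_le_mul_of_nonneg_left (cnt_le hs F (k + 1)) (a_nonneg hM0 k)) ?_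
    exact mul_le_mul_of_nonneg_left (cnt_le hs F m) (KK_nonneg _ _)
  -- lower bound
  have hLo : (∑ k ∈ Finset.range n, (KK M k - KK M (k + 1)) * Nk T k t) + KK M n * Nk T n t ≤ TM T L M t := by
    rw [hTM']
    have h1 : ∀ ρ ∈ F, (∑ k ∈ Finset.range n, (KK M k - KK M (k + 1)) * (mx ρ * (if |((ρ : ℂ).im - t) / sp T| ≤ (k : ℝ) then 1 else 0))) +
          KK M n * (mx ρ * (if |((ρ : ℂ).im - t) / sp T| ≤ (n : ℝ) then 1 else 0)) ≤ mx ρ * KK M (((ρ : ℂ).im - t) / sp T) := by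
      intro ρ _
      have h3 := step_lower (KK_anti hM0) (KK_nonneg M) (abs_nonneg (((ρ : ℂ).im - t) / sp T)) n
      rw [KK_abs] at h3
      have h4 := mul_le_mul_of_nonneg_left h3 (mx_nonneg ρ)
      refine le_trans (le_of_eq ?_) h4
      rw [mul_add, Finset.mul_sum]
      congr 1
      · refine Finset.sum_congr rfl fun k _ => ?_
        ring
      · ring
    refine le_trans ?_ (Finset.sum_le_sum h1)
    rw [Finset.sum_add_distrib, Finset.sum_comm, ← Finset.mul_sum]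
    simp_rw [← Finset.mul_sum]
    have hFk : ∀ k : ℕ, k ≤ n → ∀ ρ : ZS, |((ρ : ℂ).im - t) / sp T| ≤ k → ρ ∈ F := by
      intro k hk ρ h
      rw [hF]
      have : (k:ℝ) ≤ n := by exact_mod_cast hk
      linarith
    refine add_le_add (Finset.sum_le_sum fun k hk => mul_le_mul_of_nonneg_left
      (le_cnt hs F k (hFk k (Finset.mem_range.1 hk).le)) (a_nonneg hM0 k)) ?_
    exact mul_le_mul_of_nonneg_left (le_cnt hs F n (hFk n le_rfl)) (KK_nonneg _ _)
  -- the mass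
  have hma := (mass_sums hM0 m hc1).1
  have hmb := (mass_sums hM0 n hf1).2
  have hK0 := KK_zero M
  have htail : M ^ 2 / (n:ℝ) ≤ 2 := by
    have hn0 : (0:ℝ) < n := by exact_mod_cast hf1
    rw [div_le_iff₀ hn0]
    have : M ^ 2 ≤ M ^ 3 := pow_le_pow_right₀ hM (by norm_num)
    linarith
  have hD0 : 0 ≤ KK M m * Dk T m t := mul_nonneg (KK_nonneg _ _) (Dk_nonneg _ _ _)
  have hD1 : 0 ≤ KK M n * Dk T n t := mul_nonneg (KK_nonneg _ _) (Dk_nonneg _ _ _)
  have hS0 : 0 ≤ ∑ k ∈ Finset.range m, (KK M k - KK M (k + 1)) * Dk T (k + 1) t :=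
    Finset.sum_nonneg fun k _ => mul_nonneg (a_nonneg hM0 k) (Dk_nonneg _ _ _)
  have hS1 : 0 ≤ ∑ k ∈ Finset.range n, (KK M k - KK M (k + 1)) * Dk T k t :=
    Finset.sum_nonneg fun k _ => mul_nonneg (a_nonneg hM0 k) (Dk_nonneg _ _ _)
  have hUb : TM T L M t - M ≤ (∑ k ∈ Finset.range m, (KK M k - KK M (k + 1)) * Dk T (k + 1) t) + KK M m * Dk T m t + 2 := by
    have h1 : ∑ k ∈ Finset.range m, (KK M k - KK M (k + 1)) * Nk T (k + 1) t ≤
        ∑ k ∈ Finset.range m, ((KK M k - KK M (k + 1)) * Dk T (k + 1) t + 2 * ((KK M k - KK M (k + 1)) * k) +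
          2 * (KK M k - KK M (k + 1))) := by
      refine Finset.sum_le_sum fun k _ => ?_
      have h2 := le_abs_self (Nk T (k + 1) t - 2 * ((k + 1 : ℕ) : ℝ))
      have h3 := mul_le_mul_of_nonneg_left h2 (a_nonneg hM0 k)
      unfold Dk
      push_cast at h3 ⊢
      linarith
    rw [Finset.sum_add_distrib, Finset.sum_add_distrib, ← Finset.mul_sum, ← Finset.mul_sum, sum_a] at h1
    have h2 : KK M m * Nk T m t ≤ KK M m * Dk T m t + 2 * (m * KK M m) := by
      have h2 := le_abs_self (Nk T m t - 2 * (m : ℝ))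
      have h3 := mul_le_mul_of_nonneg_left h2 (KK_nonneg M m)
      unfold Dk
      linarith
    have := KK_nonneg M m
    linarith
  have hLb : M - TM T L M t ≤ (∑ k ∈ Finset.range n, (KK M k - KK M (k + 1)) * Dk T k t) + KK M n * Dk T n t + 6 := by
    have h1 : ∑ k ∈ Finset.range n, (2 * ((KK M k - KK M (k + 1)) * (k + 1)) - (KK M k - KK M (k + 1)) * Dk T k t -
          2 * (KK M k - KK M (k + 1))) ≤ ∑ k ∈ Finset.range n, (KK M k - KK M (k + 1)) * Nk T k t := by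
      refine Finset.sum_le_sum fun k _ => ?_
      have h2 := neg_abs_le (Nk T k t - 2 * (k : ℝ))
      have h3 := mul_le_mul_of_nonneg_left h2 (a_nonneg hM0 k)
      unfold Dk
      linarith
    rw [Finset.sum_sub_distrib, Finset.sum_sub_distrib, ← Finset.mul_sum, ← Finset.mul_sum, sum_a] at h1
    have h2 : 2 * (n * KK M n) - KK M n * Dk T n t ≤ KK M n * Nk T n t := by
      have h2 := neg_abs_le (Nk T n t - 2 * (n : ℝ))
      have h3 := mul_le_mul_of_nonneg_left h2 (KK_nonneg M n)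
      unfold Dk
      linarith
    have := KK_nonneg M n
    linarith
  rw [abs_le]
  constructor <;> linarith

/-- the trivial bound -/
lemma zc_long : ∃ C : ℝ, 0 < C ∧ ∀ (n : ℕ) (a : ℝ), (zc (Icc a (a + n)) : ℝ) ≤ (n + 1) * (C * Real.log (4 + |a| + n)) := by
  obtain ⟨C, hC, H⟩ := Pool.Agent.Helper49.SO.zc_near
  refine ⟨C, hC, fun n => ?_⟩
  induction n with
  | zero =>
    intro a
    have := H a a le_rfl (by linarith)
    simpa using this
  | succ n ih =>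
    intro a
    have h1 := ih a
    have h2 := H (a + n) (a + n + 1) (by linarith) le_rfl
    have h3 : zc (Icc a (a + (n + 1 : ℕ))) ≤ zc (Icc a (a + n)) + zc (Icc (a + n) (a + n + 1)) := by
      have h4 : Icc a (a + (n + 1 : ℕ)) ⊆ Icc a (a + n) ∪ Icc (a + n) (a + n + 1) := by
        intro x hx
        push_cast at hx
        rcases le_total x (a + n) with h | h
        · exact Or.inl ⟨hx.1, h⟩
        · exact Or.inr ⟨h, by linarith [hx.2]⟩
      have h5 : Icc a (a + n) ∪ Icc (a + n) (a + n + 1) ⊆ Icc a (a + n + 1) := by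
        rintro x (hx | hx)
        · exact ⟨hx.1, by linarith [hx.2]⟩
        · exact ⟨by linarith [hx.1, show (0:ℝ) ≤ n by positivity], hx.2⟩
      exact (zc_mono h4 h5).trans (zc_union_le (subset_union_left.trans h5) (subset_union_right.trans h5))
    have h3' : (zc (Icc a (a + (n + 1 : ℕ))) : ℝ) ≤ zc (Icc a (a + n)) + zc (Icc (a + n) (a + n + 1)) := by exact_mod_cast h3
    have h6 : Real.log (4 + |a| + n) ≤ Real.log (4 + |a| + (n + 1 : ℕ)) := by
      apply Real.log_le_log (by positivity)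
      push_cast
      linarith
    have h7 : Real.log (4 + |a + n|) ≤ Real.log (4 + |a| + (n + 1 : ℕ)) := by
      apply Real.log_le_log (by positivity)
      have := abs_add_le a (n:ℝ)
      rw [abs_of_nonneg (show (0:ℝ) ≤ n by positivity)] at this
      push_cast
      linarith
    have h8 : ((n:ℝ) + 1) * (C * Real.log (4 + |a| + n)) ≤ ((n:ℝ) + 1) * (C * Real.log (4 + |a| + (n + 1 : ℕ))) := by gcongr
    have h9 : C * Real.log (4 + |a + n|) ≤ C * Real.log (4 + |a| + (n + 1 : ℕ)) := by gcongr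
    push_cast at h3' h8 h9 ⊢
    linarith

lemma dk_triv : ∃ C T₀ : ℝ, 0 < C ∧ ∀ T : ℝ, T₀ ≤ T → ∀ (k : ℕ) (g : ℝ), (k:ℝ) ≤ Real.log T + 1 → g ∈ Icc T (2 * T) →
    Dk T k g ≤ C * Real.log T := by
  obtain ⟨C, hC, H⟩ := zc_long
  refine ⟨17 * (C * 2) + 4, max (Real.exp 8) 24, by positivity, fun T hT k g hk hg => ?_⟩
  have hT1 : Real.exp 8 ≤ T := (le_max_left _ _).trans hT
  have hT2 : 24 ≤ T := (le_max_right _ _).trans hT
  have hT0 : 0 < T := by linarith
  have hl : 8 ≤ Real.log T := by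
    rw [Real.le_log_iff_exp_le hT0]
    exact hT1
  have hl0 : 0 < Real.log T := by linarith
  have hks : k * sp T ≤ 8 := by
    unfold sp
    rw [← mul_div_assoc, div_le_iff₀ hl0]
    have h1 := Real.pi_pos
    have h2 := Real.pi_lt_d2
    nlinarith
  have hs : 0 < sp T := by
    unfold sp
    have := Real.pi_pos
    positivity
  have hN : Nk T k g ≤ 17 * (C * 2 * Real.log T) := by
    unfold Nk
    have h1 : zc (Icc (g - k * sp T) (g + k * sp T)) ≤ zc (Icc (g - 8) (g - 8 + (16:ℕ))) := by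
      refine zc_mono (fun x hx => ?_) subset_rfl
      push_cast
      exact ⟨by linarith [hx.1], by linarith [hx.2]⟩
    have h2 := H 16 (g - 8)
    have h3 : Real.log (4 + |g - 8| + (16:ℕ)) ≤ 2 * Real.log T := by
      have h4 : 2 * Real.log T = Real.log (T ^ 2) := by
        rw [Real.log_pow]
        norm_num
      rw [h4]
      apply Real.log_le_log (by positivity)
      rw [abs_of_nonneg (by linarith [hg.1])]
      push_cast
      nlinarith [hg.2]
    have h5 : (zc (Icc (g - k * sp T) (g + k * sp T)) : ℝ) ≤ zc (Icc (g - 8) (g - 8 + (16:ℕ))) := by exact_mod_cast h1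
    have h6 : C * Real.log (4 + |g - 8| + (16:ℕ)) ≤ C * (2 * Real.log T) := by gcongr
    push_cast at h2 h6 h5
    linarith
  have hN0 : 0 ≤ Nk T k g := by unfold Nk; positivity
  have hk0 : (0:ℝ) ≤ k := by positivity
  unfold Dk
  rw [abs_le]
  constructor
  · nlinarith
  · nlinarith

end Pool.Agent.Helper93.NR
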