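import Pool.Agent.Helper93.NR.Point

/-!
# NR: sums over the zeros (Palm), the second moment of the window counts at the zeros
-/

set_option autoImplicit false
open MeasureTheory Set Filter Topology
open Pool.Agent.Helper57.Zeta Pool.Agent.Helper57.LH Pool.Agent.Helper57.ED
open Pool.Agent.Helper93.UG (zc sp)
open Pool.Agent.Helper56.UG (zc_mono zc_union zc_eq fin_of)
open Pool.Agent.Helper24.UG (zc_fin)

namespace Pool.Agent.Helper93.NR

/-- from the zeros to the points -/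
lemma palm {T : ℝ} (hs : 0 < sp T) (F : Finset ZS) (hF : ∀ ρ ∈ F, (ρ : ℂ).im ∈ Icc T (2 * T)) (f : ZS → ℝ) (hf : ∀ ρ, 0 ≤ f ρ)
    (G H : ℝ → ℝ) (hfG : ∀ ρ ∈ F, ∀ u, u ≤ (ρ : ℂ).im → (ρ : ℂ).im < u + sp T → f ρ ≤ G u)
    (hG : ∀ u, 0 ≤ G u)
    (hH : ∀ u ∈ Icc (T - sp T) (2 * T), G u * (zc (Ico u (u + sp T)) : ℝ) ≤ H u)
    (hHi : IntegrableOn H (Icc (T - sp T) (2 * T))) :
    sp T * ∑ ρ ∈ F, mx ρ * f ρ ≤ ∫ u in Icc (T - sp T) (2 * T), H u := by
  classical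
  set s := sp T with hsd
  set U := Icc (T - s) (2 * T) with hU
  have h1 : ∀ ρ ∈ F, s * (mx ρ * f ρ) = ∫ u in U, (Ioc ((ρ : ℂ).im - s) (ρ : ℂ).im).indicator (fun _ => mx ρ * f ρ) u := by
    intro ρ hρ
    have h2 := hF ρ hρ
    have h3 : Ioc ((ρ : ℂ).im - s) (ρ : ℂ).im ⊆ U := by
      intro x hx
      exact ⟨by linarith [hx.1, h2.1], by linarith [hx.2, h2.2]⟩
    rw [setIntegral_indicator measurableSet_Ioc, inter_eq_self_of_subset_right h3, setIntegral_const, smul_eq_mul,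
      Real.volume_real_Ioc_of_le (by linarith)]
    ring
  rw [Finset.mul_sum, Finset.sum_congr rfl h1, ← integral_finsetSum]
  · refine setIntegral_mono_on ?_ hHi measurableSet_Icc fun u hu => ?_
    · refine integrable_finsetSum _ fun ρ _ => ?_
      exact (integrable_const _).indicator measurableSet_Ioc
    · refine le_trans ?_ (hH u hu)
      obtain ⟨W, hW, hz⟩ := zc_fin (I := Ico u (u + s)) Ico_subset_Icc_self
      have h2 : ∀ ρ ∈ F, (Ioc ((ρ : ℂ).im - s) (ρ : ℂ).im).indicator (fun _ => mx ρ * f ρ) u ≤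
          G u * (if ρ ∈ W then mx ρ else 0) := by
        intro ρ hρ
        by_cases h3 : u ∈ Ioc ((ρ : ℂ).im - s) (ρ : ℂ).im
        · have h4 : ρ ∈ W := (hW ρ).2 ⟨h3.2, by linarith [h3.1]⟩
          rw [indicator_of_mem h3, if_pos h4, mul_comm]
          exact mul_le_mul_of_nonneg_right (hfG ρ hρ u h3.2 (by linarith [h3.1])) (mx_nonneg _)
        · rw [indicator_of_notMem h3]
          refine mul_nonneg (hG u) ?_
          split_ifs
          · exact mx_nonneg _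
          · exact le_rfl
      refine (Finset.sum_le_sum h2).trans ?_
      rw [← Finset.mul_sum, hz, ← Finset.sum_filter]
      refine mul_le_mul_of_nonneg_left (Finset.sum_le_sum_of_subset_of_nonneg (fun ρ hρ => ?_) fun ρ _ _ => mx_nonneg _) (hG u)
      exact (Finset.mem_filter.1 hρ).2
  · intro ρ _
    exact (integrable_const _).indicator measurableSet_Ioc

/-- translation -/
lemma shift_le {T a : ℝ} (φ : ℝ → ℝ) (hφ : ∀ t, 0 ≤ φ t) (hi : IntegrableOn φ (Icc (T / 2) (3 * T)))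
    (h1 : T / 2 ≤ T - sp T + a) (h2 : 2 * T + a ≤ 3 * T) :
    IntegrableOn (fun u => φ (u + a)) (Icc (T - sp T) (2 * T)) ∧
      ∫ u in Icc (T - sp T) (2 * T), φ (u + a) ≤ ∫ t in Icc (T / 2) (3 * T), φ t := by
  have hsub : Icc (T - sp T + a) (2 * T + a) ⊆ Icc (T / 2) (3 * T) := Icc_subset_Icc h1 h2
  have hi2 := hi.mono_set hsub
  have hmp := measurePreserving_add_right volume a
  have hpre : (fun x : ℝ => x + a) ⁻¹' Icc (T - sp T + a) (2 * T + a) = Icc (T - sp T) (2 * T) := by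
    rw [Set.preimage_add_const_Icc]
    congr 1 <;> ring
  have hemb : MeasurableEmbedding (fun x : ℝ => x + a) := measurableEmbedding_addRight a
  constructor
  · have h3 := (hmp.integrableOn_comp_preimage hemb (f := φ) (s := Icc (T - sp T + a) (2 * T + a))).2 hi2
    rw [hpre] at h3
    exact h3
  · have h3 := hmp.setIntegral_preimage_emb hemb φ (Icc (T - sp T + a) (2 * T + a))
    rw [hpre] at h3
    rw [h3]
    exact setIntegral_mono_set hi (ae_of_all _ hφ) hsub.eventuallyLE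

lemma zc_meas' (a c : ℝ) : Measurable fun u : ℝ => (zc (Ico (u + a) (u + a + c)) : ℝ) := by
  have h5 := (Pool.Agent.Helper24.UG.zc_meas (c / 2)).comp (measurable_id.add_const (a + c / 2))
  convert h5 using 2 with u
  simp only [Function.comp_apply, id_eq]
  congr 3 <;> ring

/-- the pointwise comparison -/
lemma dk_le {T g u : ℝ} (hs : 0 < sp T) (k : ℕ) (hk : 1 ≤ k) (h1 : u ≤ g) (h2 : g < u + sp T) :
    Dk T k g ≤ |(zc (Ico (u + -(k * sp T)) (u + -(k * sp T) + (2 * k + 1) * sp T)) : ℝ) - (2 * k + 1)| +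
      |(zc (Ico (u + (sp T - k * sp T)) (u + (sp T - k * sp T) + (2 * k - 1) * sp T)) : ℝ) - (2 * k - 1)| + 1 := by
  have hk' : (1:ℝ) ≤ k := by exact_mod_cast hk
  have a1 : (zc (Ico (u + (sp T - k * sp T)) (u + (sp T - k * sp T) + (2 * k - 1) * sp T)) : ℝ) ≤ Nk T k g := by
    unfold Nk
    have : zc (Ico (u + (sp T - k * sp T)) (u + (sp T - k * sp T) + (2 * k - 1) * sp T)) ≤ zc (Icc (g - k * sp T) (g + k * sp T)) := by
      refine zc_mono (fun x hx => ?_) subset_rfl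
      exact ⟨by linarith [hx.1], by linarith [hx.2]⟩
    exact_mod_cast this
  have a2 : Nk T k g ≤ (zc (Ico (u + -(k * sp T)) (u + -(k * sp T) + (2 * k + 1) * sp T)) : ℝ) := by
    unfold Nk
    have : zc (Icc (g - k * sp T) (g + k * sp T)) ≤ zc (Ico (u + -(k * sp T)) (u + -(k * sp T) + (2 * k + 1) * sp T)) := by
      refine zc_mono (fun x hx => ?_) Ico_subset_Icc_self
      exact ⟨by linarith [hx.1], by linarith [hx.2]⟩
    exact_mod_cast this
  have b1 := le_abs_self ((zc (Ico (u + -(k * sp T)) (u + -(k * sp T) + (2 * k + 1) * sp T)) : ℝ) - (2 * k + 1))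
  have b2 := neg_abs_le ((zc (Ico (u + (sp T - k * sp T)) (u + (sp T - k * sp T) + (2 * k - 1) * sp T)) : ℝ) - (2 * k - 1))
  have c1 := abs_nonneg ((zc (Ico (u + -(k * sp T)) (u + -(k * sp T) + (2 * k + 1) * sp T)) : ℝ) - (2 * k + 1))
  have c2 := abs_nonneg ((zc (Ico (u + (sp T - k * sp T)) (u + (sp T - k * sp T) + (2 * k - 1) * sp T)) : ℝ) - (2 * k - 1))
  unfold Dk
  rw [abs_le]
  constructor <;> linarith

/-- number and moments: the integrals -/
lemma ll_big {d : ℝ} (hd : 0 < d) : ∃ T₀ : ℝ, 20 ≤ T₀ ∧ ∀ T : ℝ, T₀ ≤ T → ∀ k : ℝ, k ≤ Real.log T ^ (5 / 6 : ℝ) + 1 →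
    2 * k + 1 ≤ d * (Real.log T / Real.log (Real.log T)) ∧ 8 ≤ Real.log T := by
  obtain ⟨x₀, hx₀⟩ := eventually_atTop.mp ((tendsto_rpow_atTop (show (0:ℝ) < 1 / 12 by norm_num)).eventually_ge_atTop (60 / d))
  refine ⟨max 20 (Real.exp (max x₀ 8)), le_max_left _ _, fun T hT k hk => ?_⟩
  have hT0 : 0 < T := by linarith [(le_max_left _ _).trans hT]
  have hl : max x₀ 8 ≤ Real.log T := by
    rw [Real.le_log_iff_exp_le hT0]
    exact (le_max_right _ _).trans hT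
  obtain ⟨x, hx⟩ : ∃ x, x = Real.log T := ⟨_, rfl⟩
  rw [← hx] at hl hk ⊢
  have hx8 : 8 ≤ x := (le_max_right _ _).trans hl
  have h1 := hx₀ x ((le_max_left _ _).trans hl)
  refine ⟨?_, hx8⟩
  have hlog : Real.log x ≤ x ^ (1 / 12 : ℝ) / (1 / 12) := Real.log_le_rpow_div (by linarith) (by norm_num)
  have hlog0 : 0 < Real.log x := Real.log_pos (by linarith)
  have hy : 1 ≤ x ^ (5 / 6 : ℝ) := Real.one_le_rpow (by linarith) (by norm_num)
  rw [← mul_div_assoc, le_div_iff₀ hlog0]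
  have h2 : 2 * k + 1 ≤ 5 * x ^ (5 / 6 : ℝ) := by linarith
  have h3 : 60 ≤ d * x ^ (1 / 12 : ℝ) := by
    rw [div_le_iff₀ hd] at h1
    linarith
  have h4 : x = x ^ (5 / 6 : ℝ) * x ^ (1 / 12 : ℝ) * x ^ (1 / 12 : ℝ) := by
    rw [← Real.rpow_add (by linarith), ← Real.rpow_add (by linarith)]
    norm_num
  have h5 : 0 < x ^ (1 / 12 : ℝ) := Real.rpow_pos_of_pos (by linarith) _
  calc (2 * k + 1) * Real.log x ≤ 5 * x ^ (5 / 6 : ℝ) * Real.log x := by gcongr
    _ ≤ 5 * x ^ (5 / 6 : ℝ) * (x ^ (1 / 12 : ℝ) / (1 / 12)) := by gcongr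
    _ = 60 * (x ^ (5 / 6 : ℝ) * x ^ (1 / 12 : ℝ)) := by ring
    _ ≤ (d * x ^ (1 / 12 : ℝ)) * (x ^ (5 / 6 : ℝ) * x ^ (1 / 12 : ℝ)) := by gcongr
    _ = d * (x ^ (5 / 6 : ℝ) * x ^ (1 / 12 : ℝ) * x ^ (1 / 12 : ℝ)) := by ring
    _ = d * x := by rw [← h4]

end Pool.Agent.Helper93.NR
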