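import Pool.Agent.Helper24.UG.Mass

/-!
# NR: the kernel decreases; sums over integer windows
-/

set_option autoImplicit false
open MeasureTheory Set Filter Topology
open Pool.Agent.Helper54.LG (qk qk_cont qk_zero_nonneg qk_neg_right)

namespace Pool.Agent.Helper93.NR

lemma cusa {y : ℝ} (hy : 0 ≤ y) : 3 * Real.sin y ≤ y * (2 + Real.cos y) := by
  rcases le_total 3 y with h | h
  · have h1 := Real.sin_le_one y
    have h2 := Real.neg_one_le_cos y
    nlinarith
  · have hm : MonotoneOn (fun y : ℝ => y * (2 + Real.cos y) - 3 * Real.sin y) (Icc 0 3) := by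
      refine monotoneOn_of_deriv_nonneg (convex_Icc 0 3) (by fun_prop) (by fun_prop) fun x hx => ?_
      rw [interior_Icc] at hx
      have hd : HasDerivAt (fun y : ℝ => y * (2 + Real.cos y) - 3 * Real.sin y)
          (1 * (2 + Real.cos x) + x * (-Real.sin x) - 3 * Real.cos x) x :=
        ((hasDerivAt_id x).mul ((Real.hasDerivAt_cos x).const_add 2)).sub ((Real.hasDerivAt_sin x).const_mul 3)
      rw [hd.deriv]
      have hz : x / 2 < Real.pi / 2 := by linarith [hx.2, Real.pi_gt_three]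
      have hz0 : 0 ≤ x / 2 := by linarith [hx.1]
      have hc : 0 < Real.cos (x / 2) := Real.cos_pos_of_mem_Ioo ⟨by linarith [Real.pi_pos], hz⟩
      have ht := Real.le_tan hz0 hz
      rw [Real.tan_eq_sin_div_cos, le_div_iff₀ hc] at ht
      have hs : 0 ≤ Real.sin (x / 2) := Real.sin_nonneg_of_nonneg_of_le_pi hz0 (by linarith [Real.pi_pos])
      have e1 : Real.cos x = 1 - 2 * Real.sin (x / 2) ^ 2 := by
        have h3 := Real.cos_two_mul (x / 2)
        have h4 := Real.sin_sq_add_cos_sq (x / 2)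
        rw [show 2 * (x / 2) = x by ring] at h3
        linarith
      have e2 : Real.sin x = 2 * Real.sin (x / 2) * Real.cos (x / 2) := by
        have h3 := Real.sin_two_mul (x / 2)
        rwa [show 2 * (x / 2) = x by ring] at h3
      rw [e1, e2]
      have h5 : 0 ≤ 4 * Real.sin (x / 2) * (Real.sin (x / 2) - x / 2 * Real.cos (x / 2)) :=
        mul_nonneg (by positivity) (by linarith)
      nlinarith
    have := hm ⟨le_rfl, by norm_num⟩ ⟨hy, h⟩ hy
    simp only [zero_mul, Real.sin_zero, mul_zero, sub_zero] at this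
    linarith

lemma qk_closed' {b : ℝ} (hb : 0 < b) : qk 0 b = 4 * (b - Real.sin b) / b ^ 3 := by
  have h := Pool.Agent.Helper24.UG.qk_closed b
  rw [eq_div_iff (by positivity)]
  linarith

lemma qk_anti : AntitoneOn (qk 0) (Ici 0) := by
  have hd : ∀ b : ℝ, 0 < b → HasDerivAt (qk 0) ((4 * (1 - Real.cos b) * b ^ 3 - 4 * (b - Real.sin b) * (3 * b ^ 2)) / (b ^ 3) ^ 2) b := by
    intro b hb
    have h1 : HasDerivAt (fun b : ℝ => 4 * (b - Real.sin b) / b ^ 3)
        ((4 * (1 - Real.cos b) * b ^ 3 - 4 * (b - Real.sin b) * (3 * b ^ 2)) / (b ^ 3) ^ 2) b := by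
      have h2 := ((hasDerivAt_id b).sub (Real.hasDerivAt_sin b)).const_mul 4
      have h3 := hasDerivAt_pow 3 b
      have h4 := h2.div h3 (by positivity)
      refine h4.congr_deriv ?_
      norm_num
    refine h1.congr_of_eventuallyEq ?_
    filter_upwards [Ioi_mem_nhds hb] with x hx
    exact qk_closed' hx
  refine antitoneOn_of_deriv_nonpos (convex_Ici 0) (qk_cont 0).continuousOn (fun b hb => ?_) fun b hb => ?_
  · rw [interior_Ici] at hb
    exact (hd b hb).differentiableAt.differentiableWithinAt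
  · rw [interior_Ici] at hb
    rw [(hd b hb).deriv]
    have hb' : 0 < b := hb
    apply div_nonpos_of_nonpos_of_nonneg _ (by positivity)
    have h1 := cusa hb'.le
    have h2 : 4 * (1 - Real.cos b) * b ^ 3 - 4 * (b - Real.sin b) * (3 * b ^ 2) =
        4 * b ^ 2 * (3 * Real.sin b - b * (2 + Real.cos b)) := by ring
    rw [h2]
    exact mul_nonpos_of_nonneg_of_nonpos (by positivity) (by linarith)

/-- the kernel of scale `M` -/
noncomputable def KK (M x : ℝ) : ℝ := qk 0 (2 * Real.pi * x / M)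

lemma KK_anti {M : ℝ} (hM : 0 < M) : AntitoneOn (KK M) (Ici 0) := by
  intro x hx y hy hxy
  have hpi := Real.pi_pos
  have hx' : 0 ≤ x := hx
  have hy' : 0 ≤ y := hy
  exact qk_anti (show (0:ℝ) ≤ 2 * Real.pi * x / M by positivity) (show (0:ℝ) ≤ 2 * Real.pi * y / M by positivity)
    (div_le_div_of_nonneg_right (mul_le_mul_of_nonneg_left hxy (by positivity)) hM.le)

lemma KK_nonneg (M x : ℝ) : 0 ≤ KK M x := qk_zero_nonneg _

lemma KK_zero (M : ℝ) : KK M 0 = 2 / 3 := by
  unfold KK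
  rw [mul_zero, zero_div, Pool.Agent.Helper24.UG.qk_zero_zero]

lemma KK_abs (M x : ℝ) : KK M |x| = KK M x := by
  unfold KK
  rcases abs_choice x with h | h
  · rw [h]
  · rw [h, mul_neg, neg_div, qk_neg_right]

lemma KK_cont (M : ℝ) : Continuous (KK M) := by
  unfold KK
  exact (qk_cont 0).comp (by fun_prop)

lemma KK_le {M x : ℝ} (hM : 0 < M) (hx : 0 < x) : KK M x ≤ M ^ 2 / x ^ 2 := by
  have hpi := Real.pi_gt_three
  have h := Pool.Agent.Helper24.UG.qk_le (2 * Real.pi * x / M)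
  have h0 := KK_nonneg M x
  unfold KK at h0 ⊢
  rw [le_div_iff₀ (by positivity)]
  have h1 : (2 * Real.pi * x / M) ^ 2 = 4 * Real.pi ^ 2 * x ^ 2 / M ^ 2 := by
    field_simp
    ring
  rw [h1] at h
  have h2 : 4 * Real.pi ^ 2 * x ^ 2 / M ^ 2 * qk 0 (2 * Real.pi * x / M) =
      4 * Real.pi ^ 2 * (qk 0 (2 * Real.pi * x / M) * x ^ 2) / M ^ 2 := by
    field_simp
  rw [h2, div_le_iff₀ (by positivity)] at h
  have h3 : 0 ≤ qk 0 (2 * Real.pi * x / M) * x ^ 2 := by positivity
  have h4 : (9:ℝ) ≤ Real.pi ^ 2 := by nlinarith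
  have h5 : 36 * (qk 0 (2 * Real.pi * x / M) * x ^ 2) ≤ 4 * Real.pi ^ 2 * (qk 0 (2 * Real.pi * x / M) * x ^ 2) :=
    mul_le_mul_of_nonneg_right (by linarith) h3
  nlinarith [sq_nonneg M]

/-- half of the mass, up to the tail -/
lemma KK_mass {M : ℝ} (hM : 0 < M) : ∫ x in Ioi (0:ℝ), KK M x = M / 2 ∧ IntegrableOn (KK M) (Ioi 0) ∧
    ∀ B : ℝ, 0 < B → ∫ x in Ioi B, KK M x ≤ M ^ 2 / B := by
  have hpi := Real.pi_gt_three
  have hpi0 := Real.pi_pos
  obtain ⟨h1, h2, h3⟩ := Pool.Agent.Helper24.UG.qk_mass (X := 2 * Real.pi / M) (by positivity)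
  have e1 : ∀ x : ℝ, 2 * Real.pi / M / (2 * Real.pi) * qk 0 (2 * Real.pi / M * x) = M⁻¹ * KK M x := by
    intro x
    unfold KK
    rw [show 2 * Real.pi / M * x = 2 * Real.pi * x / M by ring]
    congr 1
    field_simp
  simp_rw [e1] at h1 h2 h3
  have hi : Integrable (KK M) := by
    have := h1.const_mul M
    refine this.congr (ae_of_all _ fun x => ?_)
    simp only
    rw [← mul_assoc, mul_inv_cancel₀ hM.ne', one_mul]
  have e2 : ∫ x, KK M x = 2 * ∫ x in Ioi (0:ℝ), KK M x := by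
    rw [← integral_comp_abs (f := KK M)]
    congr 1
    funext x
    rw [KK_abs]
  have e3 : ∫ x, KK M x = M := by
    rw [integral_const_mul] at h2
    field_simp at h2
    linarith
  refine ⟨by linarith, hi.integrableOn, fun B hB => ?_⟩
  have h4 := h3 B hB
  have h5 : ∫ x in Ioi B, M⁻¹ * KK M x ≤ ∫ x in {s : ℝ | B < |s|}, M⁻¹ * KK M x := by
    refine setIntegral_mono_set h1.integrableOn (ae_of_all _ fun x => ?_) (HasSubset.Subset.eventuallyLE fun x hx => ?_)
    · exact mul_nonneg (inv_nonneg.2 hM.le) (KK_nonneg _ _)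
    · have hx' : B < x := hx
      exact hx'.trans_le (le_abs_self x)
  rw [integral_const_mul] at h5
  have h6 : 3 / (2 * Real.pi / M * B) ≤ M / B := by
    rw [div_le_div_iff₀ (by positivity) hB]
    have : M * (2 * Real.pi / M * B) = 2 * Real.pi * B := by field_simp
    rw [this]
    nlinarith
  have h7 : M⁻¹ * ∫ x in Ioi B, KK M x ≤ M / B := h5.trans (h4.trans h6)
  rw [inv_mul_le_iff₀ hM] at h7
  refine h7.trans (le_of_eq ?_)
  ring

lemma KK_int {M : ℝ} (hM : 0 < M) (m : ℕ) (hm : 0 < m) : ∫ x in (0:ℝ)..m, KK M x ≤ M / 2 ∧ M / 2 ≤ (∫ x in (0:ℝ)..m, KK M x) + M ^ 2 / m := by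
  obtain ⟨h1, h2, h3⟩ := KK_mass hM
  have hm' : (0:ℝ) < m := by exact_mod_cast hm
  have h4 : ∫ x in Ioi (0:ℝ), KK M x = (∫ x in Ioc (0:ℝ) m, KK M x) + ∫ x in Ioi (m:ℝ), KK M x := by
    rw [← setIntegral_union Ioc_disjoint_Ioi_same measurableSet_Ioi (h2.mono_set Ioc_subset_Ioi_self) (h2.mono_set (Ioi_subset_Ioi hm'.le)),
      Ioc_union_Ioi_eq_Ioi hm'.le]
  have h5 : 0 ≤ ∫ x in Ioi (m:ℝ), KK M x := integral_nonneg fun x => KK_nonneg _ _
  have h6 := h3 m hm'
  rw [intervalIntegral.integral_of_le hm'.le]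
  constructor <;> linarith

/-! ### sums -/

/-- lower sum -/
lemma step_lower {K : ℝ → ℝ} (hK : AntitoneOn K (Ici 0)) (hK0 : ∀ x, 0 ≤ K x) {x : ℝ} (hx : 0 ≤ x) (m : ℕ) :
    (∑ k ∈ Finset.range m, (K k - K (k + 1)) * (if x ≤ k then 1 else 0)) + K m * (if x ≤ m then 1 else 0) ≤ K x := by
  induction m with
  | zero =>
    simp only [Finset.range_zero, Finset.sum_empty, Nat.cast_zero, zero_add]
    split_ifs with h
    · have : x = 0 := le_antisymm h hx
      rw [this, mul_one]
    · rw [mul_zero]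
      exact hK0 x
  | succ m ih =>
    rw [Finset.sum_range_succ]
    push_cast
    rcases le_or_gt x m with h | h
    · rw [if_pos h] at ih ⊢
      rw [if_pos (by linarith)]
      linarith
    · rw [if_neg (not_le.2 h), mul_zero, add_zero]
      have h1 : ∑ k ∈ Finset.range m, (K k - K (k + 1)) * (if x ≤ k then (1:ℝ) else 0) = 0 := by
        refine Finset.sum_eq_zero fun k hk => ?_
        have hk' : (k:ℝ) ≤ m := by exact_mod_cast (Finset.mem_range.1 hk).le
        rw [if_neg (by linarith), mul_zero]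
      rw [h1, zero_add]
      split_ifs with h2
      · rw [mul_one]
        exact hK hx (show (0:ℝ) ≤ m + 1 by positivity) h2
      · rw [mul_zero]
        exact hK0 x

/-- upper sum -/
lemma step_upper {K : ℝ → ℝ} (hK : AntitoneOn K (Ici 0)) {x : ℝ} (hx : 0 ≤ x) (m : ℕ) (hxm : x ≤ m) :
    K x ≤ (∑ k ∈ Finset.range m, (K k - K (k + 1)) * (if x ≤ k + 1 then 1 else 0)) + K m := by
  induction m with
  | zero =>
    have h : x = 0 := le_antisymm (by simpa using hxm) hx
    simp [h]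
  | succ m ih =>
    rw [Finset.sum_range_succ]
    push_cast at hxm ⊢
    rw [if_pos hxm, mul_one]
    rcases le_or_gt x m with h | h
    · have := ih h
      linarith
    · have h1 : 0 ≤ ∑ k ∈ Finset.range m, (K k - K (k + 1)) * (if x ≤ k + 1 then (1:ℝ) else 0) := by
        refine Finset.sum_nonneg fun k _ => mul_nonneg ?_ (by split_ifs <;> norm_num)
        have := hK (show (0:ℝ) ≤ k by positivity) (show (0:ℝ) ≤ (k:ℝ) + 1 by positivity) (by linarith)
        linarith
      have h2 := hK (show (0:ℝ) ≤ m by positivity) hx h.le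
      linarith

lemma abel_one (K : ℝ → ℝ) (m : ℕ) : ∑ k ∈ Finset.range m, K k = (∑ k ∈ Finset.range m, (K k - K (k + 1)) * (k + 1)) + m * K m := by
  induction m with
  | zero => simp
  | succ m ih =>
    rw [Finset.sum_range_succ, Finset.sum_range_succ, ih]
    push_cast
    ring

lemma abel_two (K : ℝ → ℝ) (m : ℕ) : ∑ k ∈ Finset.range m, K (k + 1) = (∑ k ∈ Finset.range m, (K k - K (k + 1)) * k) + m * K m := by
  induction m with
  | zero => simp
  | succ m ih =>
    rw [Finset.sum_range_succ, Finset.sum_range_succ, ih]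
    push_cast
    ring

/-- the mass between the sums -/
lemma mass_sums {M : ℝ} (hM : 0 < M) (m : ℕ) (hm : 0 < m) :
    2 * ((∑ k ∈ Finset.range m, (KK M k - KK M (k + 1)) * k) + m * KK M m) ≤ M ∧
    M ≤ 2 * ((∑ k ∈ Finset.range m, (KK M k - KK M (k + 1)) * (k + 1)) + m * KK M m) + 2 * (M ^ 2 / m) := by
  obtain ⟨h1, h2⟩ := KK_int hM m hm
  have ha : AntitoneOn (KK M) (Icc (0:ℝ) (0 + m)) := (KK_anti hM).mono fun x hx => hx.1
  have h3 := ha.integral_le_sum
  have h4 := ha.sum_le_integral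
  simp only [zero_add] at h3 h4
  push_cast at h4
  rw [abel_one] at h3
  rw [abel_two] at h4
  constructor <;> linarith

end Pool.Agent.Helper93.NR
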