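import Pool.Agent.Helper93.NR.SecFin
import Pool.Agent.Helper57.NR.Asm

/-!
# NR: the mean of the absolute value at the zeros
-/

set_option autoImplicit false
open MeasureTheory Set Filter Topology
open Pool.Agent.Helper57.Zeta Pool.Agent.Helper57.LH Pool.Agent.Helper57.ED
open Pool.Agent.Helper93.UG (zc sp)
open Pool.Agent.Helper24.UG (zc_fin)
open Pool.Agent.Helper24.NR (Js wJ phi AL Bad prd cnt)

namespace Pool.Agent.Helper93.NR

/-- the staircase -/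
lemma stair {P δ : ℝ} (hδ : 0 ≤ δ) (n : ℕ) :
    min P ((n + 1) * δ) ≤ δ * (1 + ∑ i ∈ Finset.range n, (if (i + 1) * δ < P then 1 else 0)) := by
  induction n with
  | zero =>
    simp only [Finset.range_zero, Finset.sum_empty, add_zero, mul_one, Nat.cast_zero, zero_add, one_mul]
    exact min_le_right _ _
  | succ n ih =>
    rw [Finset.sum_range_succ]
    push_cast
    rcases lt_or_ge ((n + 1) * δ) P with h | h
    · rw [if_pos h]
      rw [min_eq_right h.le] at ih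
      refine (min_le_right _ _).trans ?_
      linarith
    · rw [if_neg (not_lt.2 h), add_zero]
      rw [min_eq_left h] at ih
      exact (min_le_left _ _).trans ih

lemma prd_empty (T L t : ℝ) : prd T L t ∅ = AL L - TC T L t := by
  unfold prd TC
  simp

lemma cnt_empty (T t : ℝ) : cnt T t ∅ = 0 := by
  unfold cnt
  simp only [Set.mem_empty_iff_false, Set.ofPred_false]
  rw [zc_emp]
  simp

/-- the level sets -/
lemma level {T L e : ℝ} (F : Finset ZS) (hF : ∀ ρ ∈ F, (ρ : ℂ).im ∈ Icc T (2 * T)) :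
    ∑ ρ ∈ F, mx ρ * (if e < |AL L - TC T L (ρ : ℂ).im| then 1 else 0) ≤
      (zc {g : ℝ | T ≤ g ∧ g ≤ 2 * T ∧ Bad T L e g} : ℝ) := by
  classical
  obtain ⟨H, hH, h1⟩ := zc_fin (I := {g : ℝ | T ≤ g ∧ g ≤ 2 * T ∧ Bad T L e g}) (a := T) (b := 2 * T) (fun x hx => ⟨hx.1, hx.2.1⟩)
  rw [h1]
  simp_rw [mul_ite, mul_one, mul_zero]
  rw [← Finset.sum_filter]
  refine Finset.sum_le_sum_of_subset_of_nonneg (fun ρ hρ => ?_) fun ρ _ _ => mx_nonneg _
  rw [Finset.mem_filter] at hρ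
  rw [hH]
  refine ⟨(hF ρ hρ.1).1, (hF ρ hρ.1).2, ∅, empty_subset _, ?_⟩
  rw [cnt_empty, prd_empty, zero_sub, abs_neg]
  exact hρ.2

/-- the mean of the absolute value at the zeros -/
theorem pair_core : ∃ C T₀ : ℝ, 1 ≤ C ∧ ∀ T L : ℝ, T₀ ≤ T → C ≤ L → L ≤ Real.log T →
    ∀ F : Finset ZS, (∀ ρ ∈ F, (ρ : ℂ).im ∈ Icc T (2 * T)) →
    ∑ ρ ∈ F, mx ρ * |AL L - TC T L (ρ : ℂ).im| ≤ C / √(Real.log L) * (T * Real.log T) := by
  classical
  obtain ⟨c, C₁, T₁, hc, hC₁, H1⟩ := Pool.Agent.Helper57.NR.final_g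
  obtain ⟨C₂, T₂, hC₂, H2⟩ := sec_mom
  obtain ⟨C₃, T₃, hC₃, H3⟩ := win_mom Pool.Agent.Helper57.TX.tx1
  obtain ⟨C, hC⟩ : ∃ C, C = C₃ + C₁ * (1 / c) + C₁ * (4 / c ^ 2) + C₂ + (C₁ + C₂ + 8) := ⟨_, rfl⟩
  have hb : 0 ≤ C₃ + C₁ * (1 / c) + C₁ * (4 / c ^ 2) + C₂ := by positivity
  refine ⟨C, max (max T₁ T₂) (max T₃ 3), by linarith, fun T L hT hCL hLT F hF => ?_⟩
  have hT1 : T₁ ≤ T := (le_max_left _ _).trans ((le_max_left _ _).trans hT)
  have hT2 : T₂ ≤ T := (le_max_right _ _).trans ((le_max_left _ _).trans hT)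
  have hT3 : T₃ ≤ T := (le_max_left _ _).trans ((le_max_right _ _).trans hT)
  have hT03 : 3 ≤ T := (le_max_right _ _).trans ((le_max_right _ _).trans hT)
  have hT0 : 0 < T := by linarith
  have hLC1 : C₁ ≤ L := by linarith
  have hLC2 : C₂ ≤ L := by linarith
  have hL8 : 8 ≤ L := by linarith
  have hL0 : 0 < L := by linarith
  have hl1 : 1 ≤ Real.log L := by
    rw [Real.le_log_iff_exp_le hL0]
    have := Real.exp_one_lt_d9
    linarith
  have hl0 : 0 < Real.log L := by linarith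
  have hlT : 0 < Real.log T := by linarith
  set Z := T * Real.log T with hZd
  have hZ0 : 0 < Z := by positivity
  obtain ⟨hnum, -⟩ := H3 T hT3 F hF
  have hsec := H2 T L hT2 hLC2 hLT F hF
  obtain ⟨P, hP⟩ : ∃ P : ZS → ℝ, P = fun ρ : ZS => |AL L - TC T L (ρ : ℂ).im| := ⟨_, rfl⟩
  have hP0 : ∀ ρ, 0 ≤ P ρ := fun ρ => by rw [hP]; exact abs_nonneg _
  have hlev : ∀ e : ℝ, 0 < e → e ≤ 1 → ∑ ρ ∈ F, mx ρ * (if e < P ρ then 1 else 0) ≤ C₁ * L ^ (-(c * e ^ 2)) * Z := by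
    intro e he he1
    rw [hP]
    exact (level F hF).trans (H1 T L e hT1 hLC1 hLT he he1)
  have hsec' : ∑ ρ ∈ F, mx ρ * P ρ ^ 2 ≤ C₂ * Real.log L * Z := by
    rw [hP]
    simp only [sq_abs]
    exact hsec
  set r := √(Real.log L) with hr
  have hr0 : 0 < r := Real.sqrt_pos.2 hl0
  have hr2 : r ^ 2 = Real.log L := Real.sq_sqrt hl0.le
  have hr1 : 1 ≤ r := by
    rw [hr, Real.one_le_sqrt]
    exact hl1
  set δ := 1 / r with hδ
  have hδ0 : 0 < δ := by positivity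
  set n := ⌊r⌋₊ with hn
  have hnr : (n:ℝ) ≤ r := Nat.floor_le hr0.le
  have hnδ : 1 ≤ (n + 1) * δ := by
    rw [hδ, mul_one_div, le_div_iff₀ hr0, one_mul]
    exact (Nat.lt_floor_add_one r).le
  -- split
  have hpt : ∀ ρ ∈ F, mx ρ * P ρ ≤ δ * mx ρ + (∑ i ∈ Finset.range n, δ * (mx ρ * (if (i + 1) * δ < P ρ then 1 else 0))) +
      (r ^ 3 / 2 * (mx ρ * (if 1 < P ρ then 1 else 0)) + 1 / (2 * r ^ 3) * (mx ρ * P ρ ^ 2)) := by
    intro ρ _
    have h1 : P ρ ≤ δ * (1 + ∑ i ∈ Finset.range n, (if (i + 1) * δ < P ρ then (1:ℝ) else 0)) +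
        (r ^ 3 / 2 * (if 1 < P ρ then 1 else 0) + 1 / (2 * r ^ 3) * P ρ ^ 2) := by
      have h2 := stair (P := P ρ) hδ0.le n
      have h5 : 0 ≤ 1 / (2 * r ^ 3) * P ρ ^ 2 := by positivity
      rcases le_or_gt (P ρ) 1 with h3 | h3
      · rw [min_eq_left (h3.trans hnδ)] at h2
        rw [if_neg (not_lt.2 h3)]
        linarith
      · rw [if_pos h3]
        have h4 : 0 ≤ δ * (1 + ∑ i ∈ Finset.range n, (if (i + 1) * δ < P ρ then (1:ℝ) else 0)) := by
          refine mul_nonneg hδ0.le (add_nonneg zero_le_one (Finset.sum_nonneg fun i _ => ?_))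
          split_ifs <;> norm_num
        have h6 : r ^ 3 / 2 * 1 + 1 / (2 * r ^ 3) * P ρ ^ 2 - P ρ = (P ρ - r ^ 3) ^ 2 / (2 * r ^ 3) := by
          field_simp
          ring
        have h7 : 0 ≤ (P ρ - r ^ 3) ^ 2 / (2 * r ^ 3) := by positivity
        linarith
    have h2 := mul_le_mul_of_nonneg_left h1 (mx_nonneg ρ)
    refine h2.trans (le_of_eq ?_)
    rw [← Finset.mul_sum, ← Finset.mul_sum]
    ring
  have hsum : ∑ ρ ∈ F, mx ρ * P ρ ≤ δ * (∑ ρ ∈ F, mx ρ) +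
      (∑ i ∈ Finset.range n, δ * ∑ ρ ∈ F, mx ρ * (if (i + 1) * δ < P ρ then 1 else 0)) +
      (r ^ 3 / 2 * (∑ ρ ∈ F, mx ρ * (if 1 < P ρ then 1 else 0)) + 1 / (2 * r ^ 3) * ∑ ρ ∈ F, mx ρ * P ρ ^ 2) := by
    refine (Finset.sum_le_sum hpt).trans (le_of_eq ?_)
    rw [Finset.sum_add_distrib, Finset.sum_add_distrib, Finset.sum_add_distrib, Finset.sum_comm, ← Finset.mul_sum, ← Finset.mul_sum,
      ← Finset.mul_sum]
    congr 2
    refine Finset.sum_congr rfl fun i _ => ?_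
    rw [Finset.mul_sum]
  -- the staircase terms
  have hexp : ∀ e : ℝ, L ^ (-(c * e ^ 2)) = Real.exp (-(c * (r ^ 2 * e ^ 2))) := by
    intro e
    rw [Real.rpow_def_of_pos hL0, hr2]
    congr 1
    ring
  have hterm : ∀ i ∈ Finset.range n, δ * ∑ ρ ∈ F, mx ρ * (if (i + 1) * δ < P ρ then (1:ℝ) else 0) ≤
      δ * (C₁ * Real.exp (-(c * (i + 1))) * Z) := by
    intro i hi
    refine mul_le_mul_of_nonneg_left ?_ hδ0.le
    have hi' : (i:ℝ) + 1 ≤ n := by exact_mod_cast Finset.mem_range.1 hi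
    have h1 := hlev ((i + 1) * δ) (by positivity) (by
      rw [hδ, mul_one_div, div_le_one hr0]
      exact hi'.trans hnr)
    refine h1.trans ?_
    rw [hexp]
    refine mul_le_mul_of_nonneg_right (mul_le_mul_of_nonneg_left (Real.exp_le_exp.2 ?_) (by linarith)) hZ0.le
    have h2 : r ^ 2 * ((i + 1) * δ) ^ 2 = ((i:ℝ) + 1) ^ 2 := by
      rw [hδ]
      field_simp
    rw [h2]
    have h3 : ((i:ℝ) + 1) ≤ ((i:ℝ) + 1) ^ 2 := by nlinarith [show (0:ℝ) ≤ i by positivity]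
    have h4 := mul_le_mul_of_nonneg_left h3 hc.le
    linarith
  have hgeo : ∑ i ∈ Finset.range n, Real.exp (-(c * ((i:ℝ) + 1))) ≤ 1 / c := by
    have hx0 : 0 ≤ Real.exp (-c) := (Real.exp_pos _).le
    have hx1 : Real.exp (-c) < 1 := by
      rw [Real.exp_lt_one_iff]
      linarith
    have e1 : ∀ i : ℕ, Real.exp (-(c * ((i:ℝ) + 1))) = Real.exp (-c) * Real.exp (-c) ^ i := by
      intro i
      rw [← Real.exp_nat_mul, ← Real.exp_add]
      congr 1
      ring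
    simp_rw [e1]
    rw [← Finset.mul_sum]
    have h1 : ∑ i ∈ Finset.range n, Real.exp (-c) ^ i ≤ (1 - Real.exp (-c))⁻¹ := by
      have h2 := Summable.sum_le_tsum (f := fun i : ℕ => Real.exp (-c) ^ i) (Finset.range n) (fun i _ => by positivity)
        (summable_geometric_of_lt_one hx0 hx1)
      rwa [tsum_geometric_of_lt_one hx0 hx1] at h2
    have h3 : Real.exp (-c) * (1 - Real.exp (-c))⁻¹ ≤ 1 / c := by
      rw [← div_eq_mul_inv, div_le_div_iff₀ (by linarith) hc, one_mul]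
      have h4 := Real.add_one_le_exp c
      have h5 : Real.exp (-c) * Real.exp c = 1 := by rw [← Real.exp_add]; simp
      nlinarith
    exact (mul_le_mul_of_nonneg_left h1 hx0).trans h3
  have hstair : ∑ i ∈ Finset.range n, δ * ∑ ρ ∈ F, mx ρ * (if (i + 1) * δ < P ρ then (1:ℝ) else 0) ≤ C₁ * (1 / c) * δ * Z := by
    refine (Finset.sum_le_sum hterm).trans ?_
    have e : ∀ i : ℕ, δ * (C₁ * Real.exp (-(c * ((i:ℝ) + 1))) * Z) = (δ * C₁ * Z) * Real.exp (-(c * ((i:ℝ) + 1))) := fun i => by ring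
    simp_rw [e]
    rw [← Finset.mul_sum]
    refine (mul_le_mul_of_nonneg_left hgeo (by positivity)).trans (le_of_eq ?_)
    ring
  -- large values
  have hone := hlev 1 one_pos le_rfl
  rw [one_pow, mul_one] at hone
  have hbig : r ^ 3 / 2 * (∑ ρ ∈ F, mx ρ * (if 1 < P ρ then (1:ℝ) else 0)) ≤ C₁ * (4 / c ^ 2) * δ * Z := by
    have h1 : Real.log L ≤ L ^ (c / 2) / (c / 2) := Real.log_le_rpow_div hL0.le (by linarith)
    have h2 : Real.log L ^ 2 ≤ 4 / c ^ 2 * L ^ c := by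
      have h3 := pow_le_pow_left₀ hl0.le h1 2
      have h4 : (L ^ (c / 2) / (c / 2)) ^ 2 = 4 / c ^ 2 * L ^ c := by
        rw [div_pow, ← Real.rpow_natCast (L ^ (c / 2)) 2, ← Real.rpow_mul hL0.le]
        norm_num
        field_simp
        ring
      rwa [h4] at h3
    have h5 : r ^ 4 * L ^ (-c) ≤ 4 / c ^ 2 := by
      have h6 : r ^ 4 = Real.log L ^ 2 := by rw [← hr2]; ring
      rw [h6]
      have h7 := mul_le_mul_of_nonneg_right h2 (Real.rpow_nonneg hL0.le (-c))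
      rw [mul_assoc, ← Real.rpow_add hL0] at h7
      simpa using h7
    have h8 : r ^ 3 / 2 * (∑ ρ ∈ F, mx ρ * (if 1 < P ρ then (1:ℝ) else 0)) ≤ r ^ 3 / 2 * (C₁ * L ^ (-c) * Z) :=
      mul_le_mul_of_nonneg_left hone (by positivity)
    refine h8.trans ?_
    have h9 : r ^ 3 / 2 * (C₁ * L ^ (-c) * Z) = (r ^ 4 * L ^ (-c)) * (C₁ * δ * Z / 2) := by
      rw [hδ]
      field_simp
    rw [h9]
    have h10 : (r ^ 4 * L ^ (-c)) * (C₁ * δ * Z / 2) ≤ 4 / c ^ 2 * (C₁ * δ * Z / 2) :=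
      mul_le_mul_of_nonneg_right h5 (by positivity)
    refine h10.trans ?_
    have : 0 ≤ C₁ * (4 / c ^ 2) * δ * Z := by positivity
    linarith
  have hsq : 1 / (2 * r ^ 3) * ∑ ρ ∈ F, mx ρ * P ρ ^ 2 ≤ C₂ * δ * Z := by
    refine (mul_le_mul_of_nonneg_left hsec' (by positivity)).trans ?_
    rw [← hr2]
    have h1 : 1 / (2 * r ^ 3) * (C₂ * r ^ 2 * Z) = C₂ * δ * Z / 2 := by
      rw [hδ]
      field_simp
    rw [h1]
    have : 0 ≤ C₂ * δ * Z := by positivity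
    linarith
  have hfirst : δ * (∑ ρ ∈ F, mx ρ) ≤ C₃ * δ * Z := by
    refine (mul_le_mul_of_nonneg_left hnum hδ0.le).trans (le_of_eq ?_)
    ring
  have hfin : ∑ ρ ∈ F, mx ρ * P ρ ≤ C * δ * Z := by
    have h1 : 0 ≤ (C₁ + C₂ + 8) * δ * Z := by positivity
    have h2 : C * δ * Z = C₃ * δ * Z + C₁ * (1 / c) * δ * Z + C₁ * (4 / c ^ 2) * δ * Z + C₂ * δ * Z + (C₁ + C₂ + 8) * δ * Z := by
      rw [hC]
      ring
    linarith
  have e : C / r * Z = C * δ * Z := by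
    rw [hδ]
    ring
  rw [e]
  rw [hP] at hfin
  exact hfin

end Pool.Agent.Helper93.NR
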