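import Pool.Agent.Helper93.NR.SecMom
import Pool.Agent.Helper57.TX.Final

/-!
# NR: the second moment of the linear statistic at the zeros, assembly
-/

set_option autoImplicit false
open MeasureTheory Set Filter Topology
open Pool.Agent.Helper57.Zeta Pool.Agent.Helper57.LH Pool.Agent.Helper57.ED
open Pool.Agent.Helper93.UG (zc sp)
open Pool.Agent.Helper24.NR (Js wJ phi AL)

namespace Pool.Agent.Helper93.NR

lemma cauchy_sum {ι : Type*} (F : Finset ι) (μ : ι → ℝ) (hμ : ∀ i, 0 ≤ μ i) (D : ι → ℕ → ℝ) (a w : ℕ → ℝ) {Z : ℝ}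
    (ha : ∀ k, 0 ≤ a k) (hw : ∀ k, 0 < w k) (m : ℕ)
    (h : ∀ k < m, ∑ i ∈ F, μ i * D i k ^ 2 ≤ w k ^ 2 * Z) :
    ∑ i ∈ F, μ i * (∑ k ∈ Finset.range m, a k * D i k) ^ 2 ≤ (∑ k ∈ Finset.range m, a k * w k) ^ 2 * Z := by
  have hA : 0 ≤ ∑ k ∈ Finset.range m, a k * w k := Finset.sum_nonneg fun k _ => mul_nonneg (ha k) (hw k).le
  have h1 : ∀ i ∈ F, μ i * (∑ k ∈ Finset.range m, a k * D i k) ^ 2 ≤
      (∑ k ∈ Finset.range m, a k * w k) * ∑ k ∈ Finset.range m, a k / w k * (μ i * D i k ^ 2) := by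
    intro i _
    have h2 : (∑ k ∈ Finset.range m, a k * D i k) ^ 2 ≤
        (∑ k ∈ Finset.range m, a k * w k) * ∑ k ∈ Finset.range m, a k / w k * D i k ^ 2 := by
      refine Finset.sum_sq_le_sum_mul_sum_of_sq_eq_mul _ (fun k _ => mul_nonneg (ha k) (hw k).le)
        (fun k _ => mul_nonneg (div_nonneg (ha k) (hw k).le) (sq_nonneg _)) fun k _ => ?_
      have := (hw k).ne'
      field_simp
    refine (mul_le_mul_of_nonneg_left h2 (hμ i)).trans (le_of_eq ?_)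
    rw [← mul_assoc, mul_comm (μ i), mul_assoc, Finset.mul_sum]
    congr 1
    refine Finset.sum_congr rfl fun k _ => ?_
    ring
  refine (Finset.sum_le_sum h1).trans ?_
  rw [← Finset.mul_sum, Finset.sum_comm, sq, mul_assoc]
  refine mul_le_mul_of_nonneg_left ?_ hA
  rw [Finset.sum_mul]
  refine Finset.sum_le_sum fun k hk => ?_
  rw [← Finset.mul_sum]
  refine (mul_le_mul_of_nonneg_left (h k (Finset.mem_range.1 hk)) (div_nonneg (ha k) (hw k).le)).trans (le_of_eq ?_)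
  have := (hw k).ne'
  field_simp

/-- telescoping from `n` on -/
lemma tele {M : ℝ} (n m : ℕ) : (∑ k ∈ Finset.range m, (KK M k - KK M (k + 1)) * (if n ≤ k then 1 else 0)) +
    (if n ≤ m then KK M m else KK M n) = KK M n := by
  induction m with
  | zero =>
    simp only [Finset.range_zero, Finset.sum_empty, zero_add]
    split_ifs with h
    · have : n = 0 := by omega
      rw [this]
    · rfl
  | succ m ih =>
    rw [Finset.sum_range_succ]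
    rcases le_or_gt n m with h | h
    · rw [if_pos h] at ih ⊢
      rw [if_pos (by omega : n ≤ m + 1)]
      push_cast
      linarith
    · rw [if_neg (by omega : ¬ n ≤ m)] at ih ⊢
      rcases Nat.eq_or_lt_of_le (Nat.succ_le_of_lt h) with h2 | h2
      · rw [if_pos (by omega : n ≤ m + 1)]
        have : n = m + 1 := by omega
        subst this
        linarith
      · rw [if_neg (by omega : ¬ n ≤ m + 1)]
        linarith

lemma w_sum {M W1 W2 : ℝ} (hM : 0 < M) (hW1 : 0 ≤ W1) (hW2 : 0 ≤ W2) (n m : ℕ) (w : ℕ → ℝ)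
    (hw : ∀ k, w k ≤ W1 + W2 * (if n ≤ k then 1 else 0)) :
    ∑ k ∈ Finset.range m, (KK M k - KK M (k + 1)) * w k ≤ W1 + W2 * KK M n := by
  have h1 : ∑ k ∈ Finset.range m, (KK M k - KK M (k + 1)) * w k ≤
      ∑ k ∈ Finset.range m, (W1 * (KK M k - KK M (k + 1)) + W2 * ((KK M k - KK M (k + 1)) * (if n ≤ k then 1 else 0))) := by
    refine Finset.sum_le_sum fun k _ => (mul_le_mul_of_nonneg_left (hw k) (a_nonneg hM k)).trans (le_of_eq ?_)
    ring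
  rw [Finset.sum_add_distrib, ← Finset.mul_sum, ← Finset.mul_sum, sum_a] at h1
  have h2 := tele (M := M) n m
  have h3 : 0 ≤ (if n ≤ m then KK M m else KK M n) := by
    split_ifs
    · exact KK_nonneg _ _
    · exact KK_nonneg _ _
  have h4 : ∑ k ∈ Finset.range m, (KK M k - KK M (k + 1)) * (if n ≤ k then (1:ℝ) else 0) ≤ KK M n := by linarith
  have h5 := KK_zero M
  have h6 := KK_nonneg M m
  have h7 := mul_le_mul_of_nonneg_left h4 hW2
  nlinarith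

/-- one scale -/
lemma one_scale {T L M W1 W2 Z Z₁ : ℝ} (hs : 0 < sp T) (hL : 1 ≤ L) (hM : 1 ≤ M) (hML : M ^ 3 ≤ L) (hW1 : 0 < W1) (hW2 : 0 ≤ W2)
    (hZ : 0 ≤ Z) (n : ℕ) (F : Finset ZS) (hF : ∑ ρ ∈ F, mx ρ ≤ Z₁)
    (h : ∀ k : ℕ, k ≤ ⌈L⌉₊ → ∑ ρ ∈ F, mx ρ * Dk T k (ρ : ℂ).im ^ 2 ≤ (W1 + W2 * (if n < k then 1 else 0)) ^ 2 * Z) :
    ∑ ρ ∈ F, mx ρ * (TM T L M (ρ : ℂ).im - M) ^ 2 ≤ 20 * (W1 + W2 * KK M n) ^ 2 * Z + 180 * Z₁ := by
  classical
  have hM0 : 0 < M := by linarith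
  have hfc : ⌊L⌋₊ ≤ ⌈L⌉₊ := Nat.floor_le_ceil L
  set m := ⌈L⌉₊ with hm
  set m' := ⌊L⌋₊ with hm'
  set A := W1 + W2 * KK M n with hA
  have hA0 : 0 < A := by
    have := mul_nonneg hW2 (KK_nonneg M n)
    linarith
  have hpt : ∀ ρ ∈ F, mx ρ * (TM T L M (ρ : ℂ).im - M) ^ 2 ≤
      5 * (mx ρ * (∑ k ∈ Finset.range m, (KK M k - KK M (k + 1)) * Dk T (k + 1) (ρ : ℂ).im) ^ 2) +
      5 * (mx ρ * (∑ k ∈ Finset.range m', (KK M k - KK M (k + 1)) * Dk T k (ρ : ℂ).im) ^ 2) +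
      5 * (KK M m ^ 2 * (mx ρ * Dk T m (ρ : ℂ).im ^ 2)) + 5 * (KK M m' ^ 2 * (mx ρ * Dk T m' (ρ : ℂ).im ^ 2)) + 180 * mx ρ := by
    intro ρ _
    have h1 := point (t := (ρ : ℂ).im) hs hL hM hML
    rw [← hm, ← hm'] at h1
    set a := ∑ k ∈ Finset.range m, (KK M k - KK M (k + 1)) * Dk T (k + 1) (ρ : ℂ).im
    set b := ∑ k ∈ Finset.range m', (KK M k - KK M (k + 1)) * Dk T k (ρ : ℂ).im
    set c := KK M m * Dk T m (ρ : ℂ).im with hc
    set d := KK M m' * Dk T m' (ρ : ℂ).im with hd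
    have h2 : (TM T L M (ρ : ℂ).im - M) ^ 2 ≤ (a + b + c + d + 6) ^ 2 := by
      rw [← sq_abs]
      exact pow_le_pow_left₀ (abs_nonneg _) h1 2
    have h3 : (a + b + c + d + 6) ^ 2 ≤ 5 * a ^ 2 + 5 * b ^ 2 + 5 * c ^ 2 + 5 * d ^ 2 + 180 := by
      nlinarith [sq_nonneg (a - b), sq_nonneg (a - c), sq_nonneg (a - d), sq_nonneg (a - 6), sq_nonneg (b - c),
        sq_nonneg (b - d), sq_nonneg (b - 6), sq_nonneg (c - d), sq_nonneg (c - 6), sq_nonneg (d - 6)]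
    have h4 := mul_le_mul_of_nonneg_left (h2.trans h3) (mx_nonneg ρ)
    refine h4.trans (le_of_eq ?_)
    rw [hc, hd]
    ring
  refine (Finset.sum_le_sum hpt).trans ?_
  simp only [Finset.sum_add_distrib, ← Finset.mul_sum]
  have hw : ∀ k : ℕ, 0 < W1 + W2 * (if n < k then (1:ℝ) else 0) := by
    intro k
    have : 0 ≤ W2 * (if n < k then (1:ℝ) else 0) := mul_nonneg hW2 (by split_ifs <;> norm_num)
    linarith
  -- first sum
  have s1 : ∑ ρ ∈ F, mx ρ * (∑ k ∈ Finset.range m, (KK M k - KK M (k + 1)) * Dk T (k + 1) (ρ : ℂ).im) ^ 2 ≤ A ^ 2 * Z := by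
    refine (cauchy_sum F (fun ρ => mx ρ) (fun ρ => mx_nonneg _) (fun ρ k => Dk T (k + 1) (ρ : ℂ).im)
      (fun k : ℕ => KK M k - KK M (k + 1)) (fun k => W1 + W2 * (if n < k + 1 then 1 else 0)) (Z := Z)
      (fun k => a_nonneg hM0 k) (fun k => hw (k + 1)) m fun k hk => h (k + 1) hk).trans ?_
    refine mul_le_mul_of_nonneg_right (pow_le_pow_left₀ ?_ ?_ 2) hZ
    · exact Finset.sum_nonneg fun k _ => mul_nonneg (a_nonneg hM0 k) (hw (k + 1)).le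
    · refine w_sum hM0 hW1.le hW2 n m _ fun k => ?_
      simp only [Nat.lt_succ_iff]
      exact le_rfl
  have s2 : ∑ ρ ∈ F, mx ρ * (∑ k ∈ Finset.range m', (KK M k - KK M (k + 1)) * Dk T k (ρ : ℂ).im) ^ 2 ≤ A ^ 2 * Z := by
    refine (cauchy_sum F (fun ρ => mx ρ) (fun ρ => mx_nonneg _) (fun ρ k => Dk T k (ρ : ℂ).im)
      (fun k : ℕ => KK M k - KK M (k + 1)) (fun k => W1 + W2 * (if n < k then 1 else 0)) (Z := Z)
      (fun k => a_nonneg hM0 k) hw m' fun k hk => h k (hk.le.trans hfc)).trans ?_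
    refine mul_le_mul_of_nonneg_right (pow_le_pow_left₀ ?_ ?_ 2) hZ
    · exact Finset.sum_nonneg fun k _ => mul_nonneg (a_nonneg hM0 k) (hw k).le
    · refine w_sum hM0 hW1.le hW2 n m' _ fun k => ?_
      have : (if n < k then (1:ℝ) else 0) ≤ (if n ≤ k then 1 else 0) := by
        split_ifs with h1 h2 h3
        · exact le_rfl
        · omega
        · norm_num
        · exact le_rfl
      have := mul_le_mul_of_nonneg_left this hW2
      linarith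
  have s3 : ∀ k : ℕ, k ≤ m → KK M k ^ 2 * ∑ ρ ∈ F, mx ρ * Dk T k (ρ : ℂ).im ^ 2 ≤ A ^ 2 * Z := by
    intro k hk
    refine (mul_le_mul_of_nonneg_left (h k hk) (sq_nonneg _)).trans ?_
    rw [← mul_assoc, ← mul_pow]
    refine mul_le_mul_of_nonneg_right (pow_le_pow_left₀ (mul_nonneg (KK_nonneg _ _) (hw k).le) ?_ 2) hZ
    have hk0 : KK M k ≤ 1 := by
      have hk00 : (0:ℝ) ≤ k := Nat.cast_nonneg k
      have := KK_anti hM0 (mem_Ici.2 (le_refl (0:ℝ))) (mem_Ici.2 hk00) hk00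
      rw [KK_zero] at this
      linarith
    have hkn := KK_nonneg M k
    split_ifs with h1
    · have hn00 : (0:ℝ) ≤ n := Nat.cast_nonneg n
      have hk00 : (0:ℝ) ≤ k := Nat.cast_nonneg k
      have h2 : KK M k ≤ KK M n := KK_anti hM0 (mem_Ici.2 hn00) (mem_Ici.2 hk00) (by exact_mod_cast h1.le)
      have h3 := mul_le_mul_of_nonneg_left h2 hW2
      have h4 : KK M k * W1 ≤ 1 * W1 := mul_le_mul_of_nonneg_right hk0 hW1.le
      rw [hA]
      linarith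
    · have h4 : KK M k * W1 ≤ 1 * W1 := mul_le_mul_of_nonneg_right hk0 hW1.le
      have h5 := mul_nonneg hW2 (KK_nonneg M n)
      rw [hA]
      linarith
  have s4 := s3 m le_rfl
  have s5 := s3 m' hfc
  linarith

open Classical in
/-- the linear statistic, cut at `L` mean spacings -/
noncomputable def TC (T L t : ℝ) : ℝ :=
  ∑' ρ : ZS, mx ρ * (if |(ρ : ℂ).im - t| ≤ L * sp T then phi L (((ρ : ℂ).im - t) / sp T) else 0)

lemma tc_eq {T L t : ℝ} (hs : 0 < sp T) : TC T L t = wJ L * ∑ j ∈ Js L, TM T L (2 ^ j) t := by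
  classical
  obtain ⟨F, hF, hTM⟩ := tm_fin (T := T) (L := L) (t := t) hs
  have h1 : TC T L t = ∑ ρ ∈ F, mx ρ * phi L (((ρ : ℂ).im - t) / sp T) := by
    unfold TC
    rw [← hTM]
  have h2 : ∀ M : ℝ, TM T L M t = ∑ ρ ∈ F, mx ρ * KK M (((ρ : ℂ).im - t) / sp T) := by
    intro M
    unfold TM
    rw [← hTM]
  rw [h1]
  simp_rw [h2]
  rw [Finset.sum_comm, Finset.mul_sum]
  refine Finset.sum_congr rfl fun ρ _ => ?_
  unfold phi KK
  rw [← Finset.mul_sum]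
  ring

/-- the second moment at the zeros, from the moments of the windows -/
theorem sec_mom_of (tx1 : Pool.Agent.Helper93.UX.TX1) : ∃ C T₀ : ℝ, 1 ≤ C ∧ ∀ T L : ℝ, T₀ ≤ T → C ≤ L → L ≤ Real.log T →
    ∀ F : Finset ZS, (∀ ρ ∈ F, (ρ : ℂ).im ∈ Icc T (2 * T)) →
    ∑ ρ ∈ F, mx ρ * (AL L - TC T L (ρ : ℂ).im) ^ 2 ≤ C * Real.log L * (T * Real.log T) := by
  classical
  obtain ⟨C₁, T₁, hC₁, H1⟩ := win_mom tx1
  obtain ⟨C₂, T₂, hC₂, H2⟩ := dk_triv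
  -- constants
  obtain ⟨C, hC⟩ : ∃ C, C = 9 / 4 * (20 * (2 * (2 * C₁) + 2 * (C₂ ^ 2 * C₁)) + 180 * C₁) + 8 := ⟨_, rfl⟩
  have hC8 : 8 ≤ C := by
    rw [hC]
    have : 0 ≤ 9 / 4 * (20 * (2 * (2 * C₁) + 2 * (C₂ ^ 2 * C₁)) + 180 * C₁) := by positivity
    linarith
  refine ⟨C, max (max T₁ T₂) (Real.exp 8), by linarith, fun T L hT hCL hLT F hF => ?_⟩
  have hT1 : T₁ ≤ T := (le_max_left _ _).trans ((le_max_left _ _).trans hT)
  have hT2 : T₂ ≤ T := (le_max_right _ _).trans ((le_max_left _ _).trans hT)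
  have hT3 : Real.exp 8 ≤ T := (le_max_right _ _).trans hT
  have hT0 : 0 < T := (Real.exp_pos _).trans_le hT3
  have hl8 : 8 ≤ Real.log T := by rwa [Real.le_log_iff_exp_le hT0]
  have hl0 : 0 < Real.log T := by linarith
  have hpi := Real.pi_pos
  have hs : 0 < sp T := by unfold sp; positivity
  have hL8 : 8 ≤ L := hC8.trans hCL
  obtain ⟨hZ, hk⟩ := H1 T hT1 F hF
  set Z := T * Real.log T with hZd
  have hZ0 : 0 < Z := by positivity
  have hlogL : 1 ≤ Real.log L := by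
    rw [Real.le_log_iff_exp_le (by linarith)]
    have := Real.exp_one_lt_d9
    linarith
  set n := ⌈Real.log T ^ (5 / 6 : ℝ)⌉₊ with hn
  have hn1 : Real.log T ^ (5 / 6 : ℝ) ≤ (n:ℝ) := Nat.le_ceil _
  have hp0 : 0 < Real.log T ^ (5 / 6 : ℝ) := Real.rpow_pos_of_pos hl0 _
  have hn2 : (n:ℝ) ≤ Real.log T ^ (5 / 6 : ℝ) + 1 := (Nat.ceil_lt_add_one hp0.le).le
  obtain ⟨W1, hW1⟩ : ∃ W1, W1 = √(2 * C₁ * Real.log L) := ⟨_, rfl⟩
  obtain ⟨W2, hW2⟩ : ∃ W2, W2 = √(C₂ ^ 2 * C₁) * Real.log T := ⟨_, rfl⟩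
  have hW1p : 0 < W1 := by rw [hW1]; apply Real.sqrt_pos.2; positivity
  have hW2p : 0 ≤ W2 := by rw [hW2]; positivity
  have hW1s : W1 ^ 2 = 2 * C₁ * Real.log L := by rw [hW1, Real.sq_sqrt (by positivity)]
  have hW2s : W2 ^ 2 = C₂ ^ 2 * C₁ * Real.log T ^ 2 := by rw [hW2, mul_pow, Real.sq_sqrt (by positivity)]
  have hcl : (⌈L⌉₊ : ℝ) ≤ L + 1 := (Nat.ceil_lt_add_one (by linarith)).le
  -- the windows
  have hwin : ∀ k : ℕ, k ≤ ⌈L⌉₊ → ∑ ρ ∈ F, mx ρ * Dk T k (ρ : ℂ).im ^ 2 ≤ (W1 + W2 * (if n < k then 1 else 0)) ^ 2 * Z := by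
    intro k hkL
    have hkL' : (k:ℝ) ≤ L + 1 := (by exact_mod_cast hkL : (k:ℝ) ≤ ⌈L⌉₊).trans hcl
    split_ifs with h1
    · have h2 : ∑ ρ ∈ F, mx ρ * Dk T k (ρ : ℂ).im ^ 2 ≤ ∑ ρ ∈ F, (C₂ * Real.log T) ^ 2 * mx ρ := by
        refine Finset.sum_le_sum fun ρ hρ => ?_
        have h3 := pow_le_pow_left₀ (Dk_nonneg _ _ _) (H2 T hT2 k (ρ : ℂ).im (by linarith) (hF ρ hρ)) 2
        rw [mul_comm]
        exact mul_le_mul_of_nonneg_right h3 (mx_nonneg _)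
      rw [← Finset.mul_sum] at h2
      have h3 : (C₂ * Real.log T) ^ 2 * ∑ ρ ∈ F, mx ρ ≤ (C₂ * Real.log T) ^ 2 * (C₁ * Z) := mul_le_mul_of_nonneg_left hZ (sq_nonneg _)
      have h4 : (C₂ * Real.log T) ^ 2 * (C₁ * Z) = W2 ^ 2 * Z := by
        rw [hW2s]
        ring
      have h5 : W2 ^ 2 * Z ≤ (W1 + W2 * 1) ^ 2 * Z := by
        refine mul_le_mul_of_nonneg_right (pow_le_pow_left₀ hW2p (by linarith) 2) hZ0.le
      linarith
    · have h2 : (k:ℝ) ≤ n := by exact_mod_cast not_lt.1 h1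
      refine (hk k (h2.trans hn2)).trans ?_
      rw [mul_zero, add_zero, hW1s]
      refine mul_le_mul_of_nonneg_right ?_ hZ0.le
      have h3 : Real.log (4 + k) ≤ 2 * Real.log L := by
        have h4 : Real.log (4 + k) ≤ Real.log (L ^ 2) := by
          apply Real.log_le_log (by positivity)
          nlinarith
        rw [Real.log_pow] at h4
        push_cast at h4
        linarith
      have h5 := mul_le_mul_of_nonneg_left h3 (show 0 ≤ C₁ by linarith)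
      linarith
  -- one scale
  have hscale : ∀ j ∈ Js L, ∑ ρ ∈ F, mx ρ * (TM T L (2 ^ j) (ρ : ℂ).im - 2 ^ j) ^ 2 ≤
      (20 * (2 * (2 * C₁) + 2 * (C₂ ^ 2 * C₁)) + 180 * C₁) * Real.log L * Z := by
    intro j hj
    have hj3 : (2:ℝ) ^ (3 * j) ≤ L := by
      unfold Js at hj
      exact (Finset.mem_filter.1 hj).2.2
    have hM1 : (1:ℝ) ≤ 2 ^ j := one_le_pow₀ (by norm_num)
    have hM3 : ((2:ℝ) ^ j) ^ 3 ≤ L := by
      rwa [← pow_mul, mul_comm]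
    have h1 := one_scale hs (by linarith : 1 ≤ L) hM1 hM3 hW1p hW2p hZ0.le n F hZ hwin
    refine h1.trans ?_
    have hKn : KK (2 ^ j) n ≤ 1 / Real.log T := by
      have hnp : (0:ℝ) < n := hp0.trans_le hn1
      refine (KK_le (by linarith) hnp).trans ?_
      rw [div_le_div_iff₀ (by positivity) hl0, one_mul]
      -- M² log T ≤ n²
      have h2 : ((2:ℝ) ^ j) ^ 2 ≤ Real.log T ^ (2 / 3 : ℝ) := by
        have h3 : (((2:ℝ) ^ j) ^ 3) ^ (2 / 3 : ℝ) ≤ Real.log T ^ (2 / 3 : ℝ) :=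
          Real.rpow_le_rpow (by positivity) (hM3.trans hLT) (by norm_num)
        have h4 : (((2:ℝ) ^ j) ^ 3) ^ (2 / 3 : ℝ) = ((2:ℝ) ^ j) ^ 2 := by
          rw [← Real.rpow_natCast ((2:ℝ) ^ j) 3, ← Real.rpow_mul (by positivity), ← Real.rpow_natCast ((2:ℝ) ^ j) 2]
          norm_num
        rwa [h4] at h3
      have h5 : (Real.log T ^ (5 / 6 : ℝ)) ^ 2 ≤ (n:ℝ) ^ 2 := pow_le_pow_left₀ hp0.le hn1 2
      have h6 : (Real.log T ^ (5 / 6 : ℝ)) ^ 2 = Real.log T ^ (2 / 3 : ℝ) * Real.log T := by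
        rw [← Real.rpow_natCast (Real.log T ^ (5 / 6 : ℝ)) 2, ← Real.rpow_mul hl0.le]
        nth_rewrite 3 [← Real.rpow_one (Real.log T)]
        rw [← Real.rpow_add hl0]
        norm_num
      calc ((2:ℝ) ^ j) ^ 2 * Real.log T ≤ Real.log T ^ (2 / 3 : ℝ) * Real.log T := by gcongr
        _ ≤ (n:ℝ) ^ 2 := by rw [← h6]; exact h5
    have h2 : W2 * KK (2 ^ j) n ≤ √(C₂ ^ 2 * C₁) := by
      have h3 := mul_le_mul_of_nonneg_left hKn hW2p
      refine h3.trans (le_of_eq ?_)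
      rw [hW2]
      field_simp
    have h3 : 0 ≤ W2 * KK (2 ^ j) n := mul_nonneg hW2p (KK_nonneg _ _)
    have h4 : (W1 + W2 * KK (2 ^ j) n) ^ 2 ≤ 2 * (2 * C₁ * Real.log L) + 2 * (C₂ ^ 2 * C₁) := by
      have h5 : (W2 * KK (2 ^ j) n) ^ 2 ≤ C₂ ^ 2 * C₁ := by
        have := pow_le_pow_left₀ h3 h2 2
        rwa [Real.sq_sqrt (by positivity)] at this
      nlinarith [sq_nonneg (W1 - W2 * KK (2 ^ j) n)]
    have h5 : 2 * (C₂ ^ 2 * C₁) ≤ 2 * (C₂ ^ 2 * C₁) * Real.log L := le_mul_of_one_le_right (by positivity) hlogL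
    have h6 : 180 * (C₁ * Z) ≤ 180 * C₁ * Real.log L * Z := by
      have : 180 * C₁ * Z ≤ 180 * C₁ * Real.log L * Z := by
        refine mul_le_mul_of_nonneg_right ?_ hZ0.le
        exact le_mul_of_one_le_right (by positivity) hlogL
      linarith
    have h7 : 20 * (W1 + W2 * KK (2 ^ j) n) ^ 2 * Z ≤ 20 * ((2 * (2 * C₁) + 2 * (C₂ ^ 2 * C₁)) * Real.log L) * Z := by
      refine mul_le_mul_of_nonneg_right ?_ hZ0.le
      linarith
    linarith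
  -- the mean over the scales
  set B := (20 * (2 * (2 * C₁) + 2 * (C₂ ^ 2 * C₁)) + 180 * C₁) * Real.log L * Z with hB
  have hB0 : 0 ≤ B := by rw [hB]; positivity
  have hJ : ∀ ρ ∈ F, mx ρ * (AL L - TC T L (ρ : ℂ).im) ^ 2 ≤
      wJ L ^ 2 * (Js L).card * ∑ j ∈ Js L, mx ρ * (TM T L (2 ^ j) (ρ : ℂ).im - 2 ^ j) ^ 2 := by
    intro ρ _
    have e : AL L - TC T L (ρ : ℂ).im = -(wJ L * ∑ j ∈ Js L, (TM T L (2 ^ j) (ρ : ℂ).im - 2 ^ j)) := by
      rw [tc_eq hs]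
      unfold AL
      rw [Finset.sum_sub_distrib]
      ring
    rw [e, neg_sq, mul_pow]
    have h1 : (∑ j ∈ Js L, (TM T L (2 ^ j) (ρ : ℂ).im - 2 ^ j)) ^ 2 ≤ (Js L).card * ∑ j ∈ Js L, (TM T L (2 ^ j) (ρ : ℂ).im - 2 ^ j) ^ 2 :=
      sq_sum_le_card_mul_sum_sq
    have h2 := mul_le_mul_of_nonneg_left h1 (mul_nonneg (mx_nonneg ρ) (sq_nonneg (wJ L)))
    rw [← Finset.mul_sum]
    linarith
  refine (Finset.sum_le_sum hJ).trans ?_
  rw [← Finset.mul_sum, Finset.sum_comm]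
  have h1 : ∑ j ∈ Js L, ∑ ρ ∈ F, mx ρ * (TM T L (2 ^ j) (ρ : ℂ).im - 2 ^ j) ^ 2 ≤ (Js L).card * B := by
    refine (Finset.sum_le_sum hscale).trans (le_of_eq ?_)
    rw [Finset.sum_const, nsmul_eq_mul]
  have h2 : wJ L ^ 2 * (Js L).card * ((Js L).card * B) ≤ 9 / 4 * B := by
    unfold wJ
    rcases Nat.eq_zero_or_pos (Js L).card with h0 | h0
    · rw [h0]
      simp only [Nat.cast_zero, mul_zero, zero_mul]
      positivity
    · have h3 : (0:ℝ) < (Js L).card := by exact_mod_cast h0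
      apply le_of_eq
      field_simp
      ring
  have h3 : wJ L ^ 2 * (Js L).card * ∑ j ∈ Js L, ∑ ρ ∈ F, mx ρ * (TM T L (2 ^ j) (ρ : ℂ).im - 2 ^ j) ^ 2 ≤ 9 / 4 * B :=
    (mul_le_mul_of_nonneg_left h1 (by positivity)).trans h2
  refine h3.trans ?_
  rw [hB, hC]
  have : 0 ≤ 8 * Real.log L * Z := by positivity
  linarith

/-- the second moment at the zeros -/
theorem sec_mom : ∃ C T₀ : ℝ, 1 ≤ C ∧ ∀ T L : ℝ, T₀ ≤ T → C ≤ L → L ≤ Real.log T →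
    ∀ F : Finset ZS, (∀ ρ ∈ F, (ρ : ℂ).im ∈ Icc T (2 * T)) →
    ∑ ρ ∈ F, mx ρ * (AL L - TC T L (ρ : ℂ).im) ^ 2 ≤ C * Real.log L * (T * Real.log T) :=
  sec_mom_of Pool.Agent.Helper57.TX.tx1

end Pool.Agent.Helper93.NR
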