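import Pool.Agent.Helper93.NR.Mom
import Pool.Agent.Helper24.NR.Defs

/-!
# NR: the second moment of the linear statistic, cut at `L` mean spacings, at the zeros
-/

set_option autoImplicit false
open MeasureTheory Set Filter Topology
open Pool.Agent.Helper57.Zeta Pool.Agent.Helper57.LH Pool.Agent.Helper57.ED
open Pool.Agent.Helper93.UG (zc sp)
open Pool.Agent.Helper24.UG (zc_fin)
open Pool.Agent.Helper56.UG (zc_mono)
open Pool.Agent.Helper24.NR (Js wJ phi AL)

namespace Pool.Agent.Helper93.NR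

/-- the moments of the windows, for the points -/
lemma win_int {C d T c a : ℝ} {q : ℕ} (hT : 0 < T) (hc : 1 ≤ c)
    (H : IntegrableOn (fun t => |(zc (Ico t (t + c * sp T)) : ℝ) - c| ^ (2 * q)) (Icc (T / 2) (3 * T)) ∧
      ∫ t in Icc (T / 2) (3 * T), |(zc (Ico t (t + c * sp T)) : ℝ) - c| ^ (2 * q) ≤ C * Real.log (2 + c) ^ q * T)
    (h1 : T / 2 ≤ T - sp T + a) (h2 : 2 * T + a ≤ 3 * T) :
    IntegrableOn (fun u => |(zc (Ico (u + a) (u + a + c * sp T)) : ℝ) - c| ^ (2 * q)) (Icc (T - sp T) (2 * T)) ∧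
      ∫ u in Icc (T - sp T) (2 * T), |(zc (Ico (u + a) (u + a + c * sp T)) : ℝ) - c| ^ (2 * q) ≤ C * Real.log (2 + c) ^ q * T := by
  obtain ⟨h3, h4⟩ := shift_le (fun t => |(zc (Ico t (t + c * sp T)) : ℝ) - c| ^ (2 * q)) (fun t => by positivity) H.1 h1 h2
  exact ⟨h3, h4.trans H.2⟩

/-- number of the zeros and second moment of the window counts at the zeros -/
theorem win_mom (tx1 : Pool.Agent.Helper93.UX.TX1) : ∃ C T₀ : ℝ, 1 ≤ C ∧ ∀ T : ℝ, T₀ ≤ T → ∀ F : Finset ZS,
    (∀ ρ ∈ F, (ρ : ℂ).im ∈ Icc T (2 * T)) →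
    ∑ ρ ∈ F, mx ρ ≤ C * (T * Real.log T) ∧
    ∀ k : ℕ, (k:ℝ) ≤ Real.log T ^ (5 / 6 : ℝ) + 1 →
      ∑ ρ ∈ F, mx ρ * Dk T k (ρ : ℂ).im ^ 2 ≤ C * Real.log (4 + k) * (T * Real.log T) := by
  classical
  obtain ⟨C₁, d₁, T₁, hC₁, hd₁, H1⟩ := tx1 1
  obtain ⟨C₂, d₂, T₂, hC₂, hd₂, H2⟩ := tx1 2
  obtain ⟨T₃, hT₃, H3⟩ := ll_big (d := min d₁ d₂) (lt_min hd₁ hd₂)
  obtain ⟨A, hA⟩ : ∃ A, A = C₁ * 8 + 4 + 27 * (C₂ * 16 * 2 + 2) := ⟨_, rfl⟩
  have hA1 : 1 ≤ A := by rw [hA]; nlinarith
  refine ⟨20 * A + 20, max (max T₁ T₂) T₃, by linarith, fun T hT F hF => ?_⟩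
  have hT1 : T₁ ≤ T := (le_max_left _ _).trans ((le_max_left _ _).trans hT)
  have hT2 : T₂ ≤ T := (le_max_right _ _).trans ((le_max_left _ _).trans hT)
  have hT3 : T₃ ≤ T := (le_max_right _ _).trans hT
  have hT20 : 20 ≤ T := hT₃.trans hT3
  have hT0 : 0 < T := by linarith
  have hpi := Real.pi_pos
  have hpi3 := Real.pi_gt_three
  have hpi4 := Real.pi_lt_d2
  have hl0 : 0 < Real.log T := Real.log_pos (by linarith)
  have hl8 : 8 ≤ Real.log T := (H3 T hT3 0 (by positivity)).2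
  have hone : IntegrableOn (fun _ : ℝ => (1:ℝ)) (Icc (T - sp T) (2 * T)) := integrableOn_const (by simp)
  have hs : 0 < sp T := by unfold sp; positivity
  have hs1 : sp T ≤ 1 := by
    unfold sp
    rw [div_le_one hl0]
    linarith
  have hmin : ∀ k : ℝ, k ≤ Real.log T ^ (5 / 6 : ℝ) + 1 → 2 * k + 1 ≤ d₁ * (Real.log T / Real.log (Real.log T)) ∧
      2 * k + 1 ≤ d₂ * (Real.log T / Real.log (Real.log T)) := by
    intro k hk
    have h1 := (H3 T hT3 k hk).1
    have h2 : 0 ≤ Real.log T / Real.log (Real.log T) := div_nonneg hl0.le (Real.log_nonneg (by linarith))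
    exact ⟨h1.trans (mul_le_mul_of_nonneg_right (min_le_left _ _) h2), h1.trans (mul_le_mul_of_nonneg_right (min_le_right _ _) h2)⟩
  have hTs : sp T * (T * Real.log T) = 2 * Real.pi * T := by
    unfold sp
    field_simp
  -- the square of the number in one window
  have hn : IntegrableOn (fun u => (zc (Ico u (u + sp T)) : ℝ) ^ 2) (Icc (T - sp T) (2 * T)) ∧
      ∫ u in Icc (T - sp T) (2 * T), (zc (Ico u (u + sp T)) : ℝ) ^ 2 ≤ (C₁ * 8 + 4) * T := by
    have h0 := (hmin 0 (by positivity)).1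
    have h1 := win_int (C := C₁) (d := d₁) (a := 0) (q := 1) hT0 (c := 1) le_rfl (H1 T hT1 1 le_rfl (by linarith)) (by linarith) (by linarith)
    simp only [mul_one, one_mul, add_zero, pow_one, sq_abs] at h1
    have hi : IntegrableOn (fun u => 2 * ((zc (Ico u (u + sp T)) : ℝ) - 1) ^ 2 + 2) (Icc (T - sp T) (2 * T)) :=
      (h1.1.const_mul 2).add (by simp)
    have hm : Measurable fun u : ℝ => (zc (Ico u (u + sp T)) : ℝ) := by
      have := zc_meas' 0 (sp T)
      simpa using this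
    have hi2 : IntegrableOn (fun u => (zc (Ico u (u + sp T)) : ℝ) ^ 2) (Icc (T - sp T) (2 * T)) := by
      refine Integrable.mono' hi (hm.pow_const 2).aestronglyMeasurable (Eventually.of_forall fun u => ?_)
      rw [Real.norm_of_nonneg (sq_nonneg _)]
      nlinarith [sq_nonneg ((zc (Ico u (u + sp T)) : ℝ) - 2)]
    refine ⟨hi2, ?_⟩
    have h2 : ∫ u in Icc (T - sp T) (2 * T), (zc (Ico u (u + sp T)) : ℝ) ^ 2 ≤
        ∫ u in Icc (T - sp T) (2 * T), (2 * ((zc (Ico u (u + sp T)) : ℝ) - 1) ^ 2 + 2) := by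
      refine integral_mono hi2 hi fun u => ?_
      simp only
      nlinarith [sq_nonneg ((zc (Ico u (u + sp T)) : ℝ) - 2)]
    rw [integral_add (h1.1.const_mul 2) (by simp), integral_const_mul, setIntegral_const, smul_eq_mul,
      Real.volume_real_Icc_of_le (by linarith)] at h2
    have h3 : Real.log (2 + 1) ≤ 2 := by
      have := Real.log_le_sub_one_of_pos (show (0:ℝ) < 2 + 1 by norm_num)
      linarith
    have h4 : C₁ * Real.log (2 + 1) * T ≤ C₁ * 2 * T := by gcongr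
    have h5 := h1.2
    nlinarith
  have hni : IntegrableOn (fun u => ((zc (Ico u (u + sp T)) : ℝ) ^ 2 + 1) / 2) (Icc (T - sp T) (2 * T)) := (hn.1.add hone).div_const 2
  -- the number
  have hZ : ∑ ρ ∈ F, mx ρ ≤ (20 * A + 20) * (T * Real.log T) := by
    have h1 := palm hs F hF (fun _ => 1) (fun _ => by norm_num) (fun _ => 1)
      (fun u => ((zc (Ico u (u + sp T)) : ℝ) ^ 2 + 1) / 2) (fun _ _ _ _ _ => le_rfl) (fun _ => by norm_num)
      (fun u _ => by nlinarith [sq_nonneg ((zc (Ico u (u + sp T)) : ℝ) - 1)]) hni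
    rw [integral_div, integral_add hn.1 hone, setIntegral_const, smul_eq_mul, Real.volume_real_Icc_of_le (by linarith)] at h1
    simp only [mul_one] at h1
    have h2 : sp T * ∑ ρ ∈ F, mx ρ ≤ sp T * ((20 * A + 20) * (T * Real.log T)) := by
      have h3 : sp T * ((20 * A + 20) * (T * Real.log T)) = (20 * A + 20) * (2 * Real.pi * T) := by
        rw [← hTs]
        ring
      rw [h3]
      have h4 := hn.2
      have h5 : (C₁ * 8 + 4) * T ≤ A * T := by
        rw [hA]
        have : 0 ≤ 27 * (C₂ * 16 * 2 + 2) * T := by positivity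
        nlinarith
      have h6 : 0 ≤ A * T := by positivity
      have h7 : (20 * A + 20) * (2 * 3 * T) ≤ (20 * A + 20) * (2 * Real.pi * T) := by gcongr
      nlinarith
    exact le_of_mul_le_mul_left h2 hs
  refine ⟨hZ, ?_⟩
  -- positive k
  have hpos : ∀ k : ℕ, 1 ≤ k → (k:ℝ) ≤ Real.log T ^ (5 / 6 : ℝ) + 1 →
      ∑ ρ ∈ F, mx ρ * Dk T k (ρ : ℂ).im ^ 2 ≤ A * Real.log (4 + k) * (T * Real.log T) := by
    intro k hk hkT
    have hk' : (1:ℝ) ≤ k := by exact_mod_cast hk
    have hkd := (hmin k hkT).2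
    have hks : k * sp T ≤ T / 4 := by
      have h1 : (k:ℝ) ≤ Real.log T + 1 := by
        refine hkT.trans ?_
        have : Real.log T ^ (5 / 6 : ℝ) ≤ Real.log T ^ (1 : ℝ) := Real.rpow_le_rpow_of_exponent_le (by linarith) (by norm_num)
        rw [Real.rpow_one] at this
        linarith
      have h2 : (k:ℝ) * sp T ≤ 8 := by
        unfold sp
        rw [← mul_div_assoc, div_le_iff₀ hl0]
        nlinarith
      have h3 : Real.log T ≤ T / 4 := by
        have h4 := Real.log_le_sub_one_of_pos (show 0 < T / 8 by positivity)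
        rw [Real.log_div hT0.ne' (by norm_num)] at h4
        have h5 : Real.log 8 ≤ 2.1 := by
          rw [show (8:ℝ) = 2 ^ 3 by norm_num, Real.log_pow]
          have := Real.log_two_lt_d9
          push_cast
          linarith
        linarith
      linarith
    set Lk := Real.log (4 + k) with hLk
    have hLk1 : 1 ≤ Lk := by
      rw [hLk, Real.le_log_iff_exp_le (by positivity)]
      have := Real.exp_one_lt_d9
      linarith
    have m1 := win_int (C := C₂) (d := d₂) (a := -(k * sp T)) (q := 2) hT0 (c := 2 * k + 1) (by linarith)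
      (H2 T hT2 (2 * k + 1) (by linarith) hkd) (by nlinarith) (by nlinarith)
    have m2 := win_int (C := C₂) (d := d₂) (a := sp T - k * sp T) (q := 2) hT0 (c := 2 * k - 1) (by linarith)
      (H2 T hT2 (2 * k - 1) (by linarith) (by linarith)) (by nlinarith) (by nlinarith)
    have hlog : ∀ c : ℝ, 1 ≤ c → c ≤ 2 * k + 1 → Real.log (2 + c) ≤ 4 * Lk := by
      intro c hc1 hc
      have h1 : Real.log (2 + c) ≤ Real.log ((4 + k) ^ 2) := by
        apply Real.log_le_log (by linarith)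
        nlinarith
      rw [Real.log_pow] at h1
      push_cast at h1
      linarith
    have hb : ∀ c : ℝ, 1 ≤ c → c ≤ 2 * k + 1 → C₂ * Real.log (2 + c) ^ 2 * T ≤ C₂ * 16 * Lk ^ 2 * T := by
      intro c hc1 hc
      have h0 : 0 ≤ Real.log (2 + c) := Real.log_nonneg (by linarith)
      have h1 := pow_le_pow_left₀ h0 (hlog c hc1 hc) 2
      have h2 : (4 * Lk) ^ 2 = 16 * Lk ^ 2 := by ring
      rw [h2] at h1
      calc C₂ * Real.log (2 + c) ^ 2 * T ≤ C₂ * (16 * Lk ^ 2) * T := by gcongr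
        _ = C₂ * 16 * Lk ^ 2 * T := by ring
    have m1' := m1.2.trans (hb (2 * k + 1) (by linarith) le_rfl)
    have m2' := m2.2.trans (hb (2 * k - 1) (by linarith) (by linarith))
    set f1 : ℝ → ℝ := fun u => |(zc (Ico (u + -(k * sp T)) (u + -(k * sp T) + (2 * k + 1) * sp T)) : ℝ) - (2 * k + 1)| with hf1
    set f2 : ℝ → ℝ := fun u => |(zc (Ico (u + (sp T - k * sp T)) (u + (sp T - k * sp T) + (2 * k - 1) * sp T)) : ℝ) - (2 * k - 1)| with hf2
    have i1 : IntegrableOn (fun u => f1 u ^ 4) (Icc (T - sp T) (2 * T)) := m1.1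
    have i2 : IntegrableOn (fun u => f2 u ^ 4) (Icc (T - sp T) (2 * T)) := m2.1
    have n1 : ∫ u in Icc (T - sp T) (2 * T), f1 u ^ 4 ≤ C₂ * 16 * Lk ^ 2 * T := m1'
    have n2 : ∫ u in Icc (T - sp T) (2 * T), f2 u ^ 4 ≤ C₂ * 16 * Lk ^ 2 * T := m2'
    have i12 : IntegrableOn (fun u => f1 u ^ 4 + f2 u ^ 4) (Icc (T - sp T) (2 * T)) := i1.add i2
    have i3 : IntegrableOn (fun u => f1 u ^ 4 + f2 u ^ 4 + 1) (Icc (T - sp T) (2 * T)) := i12.add hone
    have hHi : IntegrableOn (fun u => (27 * (f1 u ^ 4 + f2 u ^ 4 + 1) / Lk + Lk * (zc (Ico u (u + sp T)) : ℝ) ^ 2) / 2)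
        (Icc (T - sp T) (2 * T)) := (((i3.const_mul 27).div_const Lk).add (hn.1.const_mul Lk)).div_const 2
    have key := palm hs F hF (fun ρ => Dk T k (ρ : ℂ).im ^ 2) (fun ρ => sq_nonneg _) (fun u => 3 * (f1 u ^ 2 + f2 u ^ 2 + 1))
      (fun u => (27 * (f1 u ^ 4 + f2 u ^ 4 + 1) / Lk + Lk * (zc (Ico u (u + sp T)) : ℝ) ^ 2) / 2)
      (fun ρ _ u hu1 hu2 => ?_) (fun u => by positivity) (fun u _ => ?_) hHi
    · rw [integral_div, integral_add ((i3.const_mul 27).div_const Lk) (hn.1.const_mul Lk), integral_div, integral_const_mul,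
        integral_const_mul, integral_add i12 hone, integral_add i1 i2, setIntegral_const, smul_eq_mul,
        Real.volume_real_Icc_of_le (by linarith)] at key
      have h1 : 27 * ((∫ u in Icc (T - sp T) (2 * T), f1 u ^ 4) + (∫ u in Icc (T - sp T) (2 * T), f2 u ^ 4) + (2 * T - (T - sp T)) * 1) / Lk ≤
          27 * (C₂ * 16 * 2 + 2) * Lk * T := by
        rw [div_le_iff₀ (by linarith)]
        have h2 : (1:ℝ) ≤ Lk ^ 2 := one_le_pow₀ hLk1
        have h3 : (2 * T - (T - sp T)) * 1 ≤ 2 * Lk ^ 2 * T := by nlinarith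
        nlinarith
      have h2 : Lk * ∫ u in Icc (T - sp T) (2 * T), (zc (Ico u (u + sp T)) : ℝ) ^ 2 ≤ Lk * ((C₁ * 8 + 4) * T) :=
        mul_le_mul_of_nonneg_left hn.2 (by linarith)
      have h3 : sp T * ∑ ρ ∈ F, mx ρ * Dk T k (ρ : ℂ).im ^ 2 ≤ A * Lk * T := by
        refine key.trans ?_
        rw [hA]
        have : 0 ≤ (27 * (C₂ * 16 * 2 + 2) + (C₁ * 8 + 4)) * Lk * T := by positivity
        linarith
      have h4 : sp T * (A * Lk * (T * Real.log T)) = A * Lk * (2 * Real.pi * T) := by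
        rw [← hTs]
        ring
      have h5 : A * Lk * T ≤ A * Lk * (2 * Real.pi * T) := by
        refine mul_le_mul_of_nonneg_left ?_ (by positivity)
        nlinarith
      refine le_of_mul_le_mul_left ?_ hs
      rw [h4]
      exact h3.trans h5
    · have h1 := dk_le hs k hk hu1 hu2
      have h2 : Dk T k (ρ : ℂ).im ≤ f1 u + f2 u + 1 := h1
      have h3 := pow_le_pow_left₀ (Dk_nonneg _ _ _) h2 2
      nlinarith [sq_nonneg (f1 u - f2 u), sq_nonneg (f1 u - 1), sq_nonneg (f2 u - 1)]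
    · have hz : 0 ≤ (zc (Ico u (u + sp T)) : ℝ) := Nat.cast_nonneg _
      set z := (zc (Ico u (u + sp T)) : ℝ)
      set g := 3 * (f1 u ^ 2 + f2 u ^ 2 + 1) with hg
      have hg2 : g ^ 2 ≤ 27 * (f1 u ^ 4 + f2 u ^ 4 + 1) := by
        rw [hg]
        nlinarith [sq_nonneg (f1 u ^ 2 - f2 u ^ 2), sq_nonneg (f1 u ^ 2 - 1), sq_nonneg (f2 u ^ 2 - 1)]
      have h1 : g * z ≤ (g ^ 2 / Lk + Lk * z ^ 2) / 2 := by
        have h2 : (g ^ 2 / Lk + Lk * z ^ 2) / 2 - g * z = (g - Lk * z) ^ 2 / (2 * Lk) := by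
          field_simp
          ring
        have h3 : 0 ≤ (g - Lk * z) ^ 2 / (2 * Lk) := by positivity
        linarith
      refine h1.trans ?_
      have h2 : g ^ 2 / Lk ≤ 27 * (f1 u ^ 4 + f2 u ^ 4 + 1) / Lk := div_le_div_of_nonneg_right hg2 (by linarith)
      linarith
  intro k hkT
  rcases Nat.eq_zero_or_pos k with h0 | h0
  · subst h0
    have h1 := hpos 1 le_rfl (by
      have : 0 ≤ Real.log T ^ (5 / 6 : ℝ) := by positivity
      push_cast
      linarith)
    have h2 : ∀ ρ ∈ F, mx ρ * Dk T 0 (ρ : ℂ).im ^ 2 ≤ 2 * (mx ρ * Dk T 1 (ρ : ℂ).im ^ 2) + 8 * mx ρ := by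
      intro ρ _
      have h3 : Dk T 0 (ρ : ℂ).im ≤ Dk T 1 (ρ : ℂ).im + 2 := by
        have e0 : Nk T 0 (ρ : ℂ).im ≤ Nk T 1 (ρ : ℂ).im := by
          unfold Nk
          have : zc (Icc ((ρ : ℂ).im - (0:ℕ) * sp T) ((ρ : ℂ).im + (0:ℕ) * sp T)) ≤
              zc (Icc ((ρ : ℂ).im - (1:ℕ) * sp T) ((ρ : ℂ).im + (1:ℕ) * sp T)) := by
            refine zc_mono (fun x hx => ?_) subset_rfl
            push_cast at hx ⊢
            exact ⟨by linarith [hx.1], by linarith [hx.2]⟩
          exact_mod_cast this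
        have e1 : 0 ≤ Nk T 0 (ρ : ℂ).im := by unfold Nk; positivity
        have e2 := le_abs_self (Nk T 1 (ρ : ℂ).im - 2 * ((1:ℕ):ℝ))
        unfold Dk
        rw [Nat.cast_zero, mul_zero, sub_zero, abs_of_nonneg e1]
        push_cast at e2 ⊢
        linarith
      have h4 := pow_le_pow_left₀ (Dk_nonneg _ _ _) h3 2
      have h5 : Dk T 0 (ρ : ℂ).im ^ 2 ≤ 2 * Dk T 1 (ρ : ℂ).im ^ 2 + 8 := by
        nlinarith [sq_nonneg (Dk T 1 (ρ : ℂ).im - 2)]
      have h6 := mul_le_mul_of_nonneg_left h5 (mx_nonneg ρ)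
      linarith
    have h3 := Finset.sum_le_sum h2
    rw [Finset.sum_add_distrib, ← Finset.mul_sum, ← Finset.mul_sum] at h3
    have h4 : Real.log (4 + (1:ℕ)) ≤ 2 := by
      have : Real.log (4 + (1:ℕ)) ≤ Real.log (Real.exp 2) := by
        apply Real.log_le_log (by positivity)
        have h5 := Real.exp_one_gt_d9
        have h6 : Real.exp 2 = Real.exp 1 * Real.exp 1 := by rw [← Real.exp_add]; norm_num
        rw [h6]
        push_cast
        nlinarith
      rwa [Real.log_exp] at this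
    have h5 : 1 ≤ Real.log (4 + (0:ℕ)) := by
      rw [Real.le_log_iff_exp_le (by positivity)]
      have := Real.exp_one_lt_d9
      push_cast
      linarith
    have hTL : 0 ≤ T * Real.log T := by positivity
    have h6 : A * Real.log (4 + (1:ℕ)) * (T * Real.log T) ≤ A * 2 * (T * Real.log T) := by gcongr
    -- the number with a better constant
    have hZ' : ∑ ρ ∈ F, mx ρ ≤ (A + 1) * (T * Real.log T) := by
      have h1 := palm hs F hF (fun _ => 1) (fun _ => by norm_num) (fun _ => 1)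
        (fun u => ((zc (Ico u (u + sp T)) : ℝ) ^ 2 + 1) / 2) (fun _ _ _ _ _ => le_rfl) (fun _ => by norm_num)
        (fun u _ => by nlinarith [sq_nonneg ((zc (Ico u (u + sp T)) : ℝ) - 1)]) hni
      rw [integral_div, integral_add hn.1 hone, setIntegral_const, smul_eq_mul, Real.volume_real_Icc_of_le (by linarith)] at h1
      simp only [mul_one] at h1
      have h2 : sp T * ∑ ρ ∈ F, mx ρ ≤ sp T * ((A + 1) * (T * Real.log T)) := by
        have h3 : sp T * ((A + 1) * (T * Real.log T)) = (A + 1) * (2 * Real.pi * T) := by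
          rw [← hTs]
          ring
        rw [h3]
        have h4 := hn.2
        have h5 : (C₁ * 8 + 4) * T ≤ A * T := by
          rw [hA]
          have : 0 ≤ 27 * (C₂ * 16 * 2 + 2) * T := by positivity
          nlinarith
        have h6 : 0 ≤ A * T := by positivity
        have h7 : (A + 1) * (2 * 3 * T) ≤ (A + 1) * (2 * Real.pi * T) := by gcongr
        nlinarith
      exact le_of_mul_le_mul_left h2 hs
    have h7 : (20 * A + 20) * 1 * (T * Real.log T) ≤ (20 * A + 20) * Real.log (4 + (0:ℕ)) * (T * Real.log T) := by gcongr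
    have h8 : 0 ≤ A * (T * Real.log T) := by positivity
    nlinarith
  · refine (hpos k h0 hkT).trans ?_
    have h1 : 0 ≤ Real.log (4 + k) := Real.log_nonneg (by linarith [show (0:ℝ) ≤ k by positivity])
    have h2 : A ≤ 20 * A + 20 := by linarith
    gcongr

end Pool.Agent.Helper93.NR
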