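import Pool.Agent.Helper93.NR.Transfer
import Pool.Agent.Helper57.TX.Final

/-!
# NR: from the measure to the ordinates, without hypothesis
-/

set_option autoImplicit false
open MeasureTheory Set Filter Topology
open Pool.Agent.Helper93.UG (zc sp)

namespace Pool.Agent.Helper93.NR

/-- P: from the measure to the ordinates -/
theorem transfer : ∃ C T₀ : ℝ, 1 ≤ C ∧ ∀ T η δ : ℝ, T₀ ≤ T → 0 < η → η ≤ 1 → 0 < δ → δ ≤ 1 → ∀ Γ E : Set ℝ, Γ ⊆ Icc T (2 * T) →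
    (∀ γ ∈ Γ, ∀ t, |t - γ| < η * sp T → t ∈ E) → E ⊆ Icc (T / 2) (3 * T) → volume E ≤ ENNReal.ofReal (δ * T) →
    (zc Γ : ℝ) ≤ C / η * √δ * (T * Real.log T) :=
  transfer_of Pool.Agent.Helper57.TX.tx1

end Pool.Agent.Helper93.NR
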